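import Mathlib
import Pool.Agent.Helper446.Comp

set_option autoImplicit false

/-!
The well-ordering of the natural numbers of type `ω ^ ω` given by Cantor normal forms.
-/

namespace Pool.Agent.H314.OmOm

open Ordinal Encodable Pool.Agent.Helper446

/-- The entry `i` of a list, `0` beyond its end. -/
def gd (a : List ℕ) (i : ℕ) : ℕ := (a[i]?).getD 0

@[simp] theorem gd_nil (i : ℕ) : gd [] i = 0 := by simp [gd]
@[simp] theorem gd_cons_zero (c : ℕ) (l : List ℕ) : gd (c :: l) 0 = c := by simp [gd]
@[simp] theorem gd_cons_succ (c : ℕ) (l : List ℕ) (i : ℕ) : gd (c :: l) (i + 1) = gd l i := by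
  simp [gd]

/-- The ordinal `ω ^ m * c_m + ... + ω * c_1 + c_0` of a list `[c_m, ..., c_1, c_0]`. -/
noncomputable def pv : List ℕ → Ordinal.{0}
  | [] => 0
  | c :: l => ω ^ l.length * (c : Ordinal.{0}) + pv l

/-- The ordinal coded by a list: `0` for the empty list, and
`ω ^ m * (c_m + 1) + ω ^ (m - 1) * c_(m-1) + ... + c_0` for the list `[c_m, ..., c_0]`. -/
noncomputable def cnf : List ℕ → Ordinal.{0}
  | [] => 0
  | c :: l => pv ((c + 1) :: l)

/-- The list with code `x`. -/
def lst (x : ℕ) : List ℕ := Denumerable.ofNat (List ℕ) x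

/-- The ordering of the natural numbers by the Cantor normal forms they code. -/
def Ord (x y : ℕ) : Prop := cnf (lst x) < cnf (lst y)

/-- Lexicographic comparison. -/
def LexLt (l l' : List ℕ) : Prop :=
  ∃ i < l.length, (∀ j < i, gd l j = gd l' j) ∧ gd l i < gd l' i

theorem pv_lt (l : List ℕ) : pv l < ω ^ l.length := by
  induction l with
  | nil => simp [pv]
  | cons c l ih =>
    have h1 : pv (c :: l) < ω ^ l.length * ((c : Ordinal.{0}) + 1) := by
      rw [pv, mul_add, mul_one]
      exact (add_lt_add_iff_left _).2 ih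
    refine lt_of_lt_of_le h1 ?_
    rw [List.length_cons, pow_succ]
    refine mul_le_mul_right ?_ _
    have : ((c : Ordinal.{0}) + 1) = ((c + 1 : ℕ) : Ordinal.{0}) := by push_cast; rfl
    rw [this]
    exact (natCast_lt_omega0 _).le

theorem lexLt_cons (c c' : ℕ) (l l' : List ℕ) :
    LexLt (c :: l) (c' :: l') ↔ c < c' ∨ (c = c' ∧ LexLt l l') := by
  constructor
  · rintro ⟨i, hi, h1, h2⟩
    rcases i with _ | i
    · left; simpa using h2
    · right
      refine ⟨by simpa using h1 0 (by omega), i, by simpa using hi, fun j hj => ?_, by simpa using h2⟩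
      simpa using h1 (j + 1) (by omega)
  · rintro (h | ⟨rfl, i, hi, h1, h2⟩)
    · exact ⟨0, by simp, by simp, by simpa using h⟩
    · refine ⟨i + 1, by simpa using hi, fun j hj => ?_, by simpa using h2⟩
      rcases j with _ | j
      · simp
      · simpa using h1 j (by omega)

theorem pv_lt_of {c c' : ℕ} {l l' : List ℕ} (h : l.length = l'.length) (hc : c < c') :
    pv (c :: l) < pv (c' :: l') := by
  have h1 : pv (c :: l) < ω ^ l.length * ((c : Ordinal.{0}) + 1) := by
    rw [pv, mul_add, mul_one]
    exact (add_lt_add_iff_left _).2 (pv_lt l)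
  refine lt_of_lt_of_le h1 ?_
  rw [pv, h]
  refine le_trans (mul_le_mul_right ?_ _) (le_add_of_nonneg_right zero_le)
  have : ((c : Ordinal.{0}) + 1) = ((c + 1 : ℕ) : Ordinal.{0}) := by push_cast; rfl
  rw [this]
  exact_mod_cast hc

theorem pv_lt_iff : ∀ (l l' : List ℕ), l.length = l'.length → (pv l < pv l' ↔ LexLt l l')
  | [], [], _ => by
    constructor
    · intro h; simp [pv] at h
    · rintro ⟨i, hi, -⟩; simp at hi
  | c :: l, c' :: l', h => by
    have h' : l.length = l'.length := by simpa using h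
    rw [lexLt_cons]
    rcases lt_trichotomy c c' with hc | hc | hc
    · simp [pv_lt_of h' hc, hc]
    · subst hc
      rw [pv, pv, h', add_lt_add_iff_left, pv_lt_iff l l' h']
      simp
    · have := pv_lt_of h'.symm hc
      constructor
      · intro h2; exact absurd h2 (not_lt.2 this.le)
      · rintro (h2 | ⟨h2, -⟩) <;> omega

theorem lexLt_succ (c c' : ℕ) (l l' : List ℕ) :
    LexLt ((c + 1) :: l) ((c' + 1) :: l') ↔ LexLt (c :: l) (c' :: l') := by
  rw [lexLt_cons, lexLt_cons]; simp

theorem cnf_lt (l : List ℕ) : cnf l < ω ^ l.length := by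
  cases l with
  | nil => simp [cnf]
  | cons c l => simpa [cnf] using pv_lt ((c + 1) :: l)

theorem le_cnf (c : ℕ) (l : List ℕ) : ω ^ l.length ≤ cnf (c :: l) := by
  rw [cnf, pv]
  refine le_trans ?_ (le_add_of_nonneg_right zero_le)
  conv_lhs => rw [← mul_one (ω ^ l.length)]
  refine mul_le_mul_right ?_ _
  have : (1 : Ordinal.{0}) = ((1 : ℕ) : Ordinal.{0}) := by simp
  rw [this]
  exact_mod_cast Nat.le_add_left 1 c

theorem cnf_lt_of_length {l l' : List ℕ} (h : l.length < l'.length) : cnf l < cnf l' := by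
  refine lt_of_lt_of_le (cnf_lt l) ?_
  cases l' with
  | nil => simp at h
  | cons c l' =>
    refine le_trans ?_ (le_cnf c l')
    rw [← opow_natCast, ← opow_natCast]
    refine opow_le_opow_right omega0_pos ?_
    have : l.length ≤ l'.length := by simpa [Nat.lt_succ_iff] using h
    exact_mod_cast this

theorem cnf_lt_iff_same {l l' : List ℕ} (h : l.length = l'.length) :
    cnf l < cnf l' ↔ LexLt l l' := by
  cases l with
  | nil =>
    cases l' with
    | nil =>
      constructor
      · intro h; simp [cnf] at h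
      · rintro ⟨i, hi, -⟩; simp at hi
    | cons c' l' => simp at h
  | cons c l =>
    cases l' with
    | nil => simp at h
    | cons c' l' =>
      have h' : l.length = l'.length := by simpa using h
      rw [cnf, cnf, pv_lt_iff _ _ (by simpa using h'), lexLt_succ]

theorem cnf_lt_iff (l l' : List ℕ) :
    cnf l < cnf l' ↔ l.length < l'.length ∨ (l.length = l'.length ∧ LexLt l l') := by
  rcases lt_trichotomy l.length l'.length with h | h | h
  · simp [cnf_lt_of_length h, h]
  · simp [h, cnf_lt_iff_same h]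
  · have h1 := cnf_lt_of_length h
    constructor
    · intro h2; exact absurd h2 (not_lt.2 h1.le)
    · rintro (h2 | ⟨h2, -⟩) <;> omega

theorem lexLt_trich : ∀ (l l' : List ℕ), l.length = l'.length → LexLt l l' ∨ l = l' ∨ LexLt l' l
  | [], [], _ => by simp
  | c :: l, c' :: l', h => by
    have h' : l.length = l'.length := by simpa using h
    rw [lexLt_cons, lexLt_cons]
    rcases lt_trichotomy c c' with hc | hc | hc
    · simp [hc]
    · subst hc
      rcases lexLt_trich l l' h' with h1 | h1 | h1
      · simp [h1]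
      · simp [h1]
      · simp [h1]
    · simp [hc]

theorem cnf_inj {l l' : List ℕ} (h : cnf l = cnf l') : l = l' := by
  have h1 : ¬ cnf l < cnf l' := by simp [h]
  have h2 : ¬ cnf l' < cnf l := by simp [h]
  rw [cnf_lt_iff] at h1 h2
  push Not at h1 h2
  have h3 : l.length = l'.length := le_antisymm h2.1 h1.1
  rcases lexLt_trich l l' h3 with h4 | h4 | h4
  · exact absurd h4 (h1.2 h3)
  · exact h4
  · exact absurd h4 (h2.2 h3.symm)

theorem exists_cnf_eq_pv : ∀ l : List ℕ, ∃ l', cnf l' = pv l
  | [] => ⟨[], by simp [cnf, pv]⟩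
  | 0 :: l => by
    obtain ⟨l', h⟩ := exists_cnf_eq_pv l
    exact ⟨l', by rw [h]; simp [pv]⟩
  | (c + 1) :: l => ⟨c :: l, rfl⟩

theorem exists_pv : ∀ (n : ℕ) (o : Ordinal.{0}), o < ω ^ n → ∃ l : List ℕ, l.length = n ∧ pv l = o
  | 0, o, h => by
    refine ⟨[], rfl, ?_⟩
    have : o < 1 := by simpa using h
    rw [pv]
    exact (Order.lt_one_iff.1 this).symm
  | n + 1, o, h => by
    have hpos : (ω ^ n : Ordinal.{0}) ≠ 0 := by
      have := opow_pos (n : Ordinal.{0}) omega0_pos
      rw [opow_natCast] at this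
      exact this.ne'
    have h1 : o / ω ^ n < ω := by
      rw [← lt_mul_iff_div_lt hpos, ← pow_succ]
      exact h
    obtain ⟨c, hc⟩ := lt_omega0.1 h1
    obtain ⟨l, hl1, hl2⟩ := exists_pv n (o % ω ^ n) (mod_lt _ hpos)
    refine ⟨c :: l, by simp [hl1], ?_⟩
    rw [pv, hl2, hl1, ← hc]
    exact div_add_mod _ _

theorem exists_cnf {o : Ordinal.{0}} (h : o < ω ^ ω) : ∃ l, cnf l = o := by
  obtain ⟨c, hc, h1⟩ := (lt_opow_of_isSuccLimit omega0_ne_zero isSuccLimit_omega0).1 h
  obtain ⟨n, rfl⟩ := lt_omega0.1 hc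
  rw [opow_natCast] at h1
  obtain ⟨l, -, hl⟩ := exists_pv n o h1
  obtain ⟨l', hl'⟩ := exists_cnf_eq_pv l
  exact ⟨l', hl'.trans hl⟩

theorem cnf_lt_omega (l : List ℕ) : cnf l < ω ^ ω := by
  refine lt_of_lt_of_le (cnf_lt l) ?_
  rw [← opow_natCast]
  exact opow_le_opow_right omega0_pos (natCast_lt_omega0 _).le


theorem gd_c : Computable fun x : List ℕ × ℕ => gd x.1 x.2 :=
  Computable.option_getD (Computable.list_getElem?.comp Computable.fst Computable.snd)
    (Computable.const 0)

@[fun_prop] theorem gd_comp {α : Type*} [Primcodable α] {f : α → List ℕ} {g : α → ℕ}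
    (hf : Computable f) (hg : Computable g) : Computable fun x => gd (f x) (g x) :=
  gd_c.comp (hf.pair hg)

theorem lst_c : Computable lst := Computable.ofNat (List ℕ)

@[fun_prop] theorem lst_comp {α : Type*} [Primcodable α] {f : α → ℕ}
    (hf : Computable f) : Computable fun x => lst (f x) := lst_c.comp hf

theorem lexLt_re {α : Type*} [Primcodable α] {f g : α → List ℕ} (hf : Computable f)
    (hg : Computable g) : REPred fun x => LexLt (f x) (g x) := by
  unfold LexLt
  refine RE.exN (p := fun x i => i < (f x).length ∧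
    (∀ j < i, gd (f x) j = gd (g x) j) ∧ gd (f x) i < gd (g x) i) ?_
  refine RE.and (RE.lt (by fun_prop) (by fun_prop)) (RE.and ?_ (RE.lt (by fun_prop) (by fun_prop)))
  refine RE.all_lt (p := fun (x : α × ℕ) j => gd (f x.1) j = gd (g x.1) j) ?_ (by fun_prop)
  exact RE.eq (by fun_prop) (by fun_prop)

theorem lst_encode (l : List ℕ) : lst (encode l) = l := by
  unfold lst; exact Denumerable.ofNat_encode l

theorem encode_lst (x : ℕ) : encode (lst x) = x := by
  unfold lst; exact Denumerable.encode_ofNat x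

theorem lst_inj {x y : ℕ} (h : lst x = lst y) : x = y := by
  rw [← encode_lst x, h, encode_lst]

theorem ord_wf : WellFounded Ord :=
  InvImage.wf (fun x => cnf (lst x)) Ordinal.lt_wf

instance : IsWellOrder ℕ Ord where
  wf := ord_wf
  trichotomous x y := by
    intro h1 h2
    exact lst_inj (cnf_inj (le_antisymm (not_lt.1 h2) (not_lt.1 h1)))

/-- `Ord` as a principal segment of the ordinals. -/
noncomputable def seg : PrincipalSeg Ord ((· < ·) : Ordinal.{0} → Ordinal.{0} → Prop) where
  toFun x := cnf (lst x)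
  inj' x y h := lst_inj (cnf_inj h)
  map_rel_iff' := Iff.rfl
  top := ω ^ ω
  mem_range_iff_rel' o := by
    constructor
    · rintro ⟨x, rfl⟩
      exact cnf_lt_omega _
    · intro h
      obtain ⟨l, hl⟩ := exists_cnf h
      refine ⟨encode l, ?_⟩
      show cnf (lst (encode l)) = o
      rw [lst_encode, hl]

theorem typein_eq_seg : Ordinal.typein Ord = seg := Subsingleton.elim _ _

theorem type_ord : Ordinal.type Ord = ω ^ ω := by
  have h : (Ordinal.typein Ord).top = seg.top := by rw [typein_eq_seg]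
  exact h

theorem typein_ord (x : ℕ) : Ordinal.typein Ord x = cnf (lst x) := by
  rw [typein_eq_seg]; rfl

theorem ord_re : REPred fun x : ℕ × ℕ => Ord x.1 x.2 := by
  have h : REPred fun x : ℕ × ℕ => (lst x.1).length < (lst x.2).length ∨
      ((lst x.1).length = (lst x.2).length ∧ LexLt (lst x.1) (lst x.2)) :=
    RE.or (RE.lt (by fun_prop) (by fun_prop))
      (RE.and (RE.eq (by fun_prop) (by fun_prop)) (lexLt_re (by fun_prop) (by fun_prop)))
  exact h.of_eq fun x => (cnf_lt_iff _ _).symm

theorem ord_c : ComputablePred fun x : ℕ × ℕ => Ord x.1 x.2 := by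
  refine RE.cp_of_re ord_re ?_
  have h : REPred fun x : ℕ × ℕ => x.1 = x.2 ∨ Ord x.2 x.1 :=
    RE.or (RE.eq (by fun_prop) (by fun_prop))
      (RE.comp (p := fun x : ℕ × ℕ => Ord x.1 x.2) ord_re (f := fun x : ℕ × ℕ => (x.2, x.1))
        (by fun_prop))
  refine h.of_eq fun x => ?_
  constructor
  · rintro (h1 | h1)
    · rw [h1]; exact lt_irrefl _
    · exact not_lt.2 (le_of_lt h1)
  · intro h1
    rcases lt_or_eq_of_le (not_lt.1 h1) with h2 | h2
    · exact Or.inr h2
    · exact Or.inl (lst_inj (cnf_inj h2.symm))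

end Pool.Agent.H314.OmOm
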