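import Mathlib
import Pool.Agent.H314.OmOm.Ord

set_option autoImplicit false

/-!
Presentations of commutative semigroups by r.e. sets of relations.
-/

namespace Pool.Agent.H314.OmOm

open Encodable Pool.Agent.Helper446

theorem rtg_iff {β : Type*} (r : β → β → Prop) (b c : β) :
    Relation.ReflTransGen r b c ↔ ∃ l : List β, l[0]? = some b ∧ l[l.length - 1]? = some c ∧
      ∀ i < l.length - 1, ∃ p : β × β, l[i]? = some p.1 ∧ l[i + 1]? = some p.2 ∧ r p.1 p.2 := by
  constructor
  · intro h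
    induction h using Relation.ReflTransGen.head_induction_on with
    | refl => exact ⟨[c], by simp, by simp, by intro i hi; simp at hi⟩
    | head h1 h2 ih =>
      rename_i a b'
      obtain ⟨l, hl0, hl1, hl⟩ := ih
      have hlen : 0 < l.length := by
        rcases l with _ | ⟨x, l⟩
        · simp at hl0
        · simp
      refine ⟨a :: l, by simp, ?_, ?_⟩
      · have : (a :: l).length - 1 = (l.length - 1) + 1 := by simp; omega
        rw [this, List.getElem?_cons_succ]
        exact hl1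
      · intro i hi
        rcases i with _ | i
        · exact ⟨(a, b'), by simp, by simpa using hl0, h1⟩
        · obtain ⟨p, hp1, hp2, hp3⟩ := hl i (by simp at hi; omega)
          exact ⟨p, by rw [List.getElem?_cons_succ]; exact hp1, by rw [List.getElem?_cons_succ]; exact hp2, hp3⟩
  · rintro ⟨l, hl0, hl1, hl⟩
    have key : ∀ i, i ≤ l.length - 1 → ∃ u, l[i]? = some u ∧ Relation.ReflTransGen r b u := by
      intro i
      induction i with
      | zero => intro _; exact ⟨b, hl0, .refl⟩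
      | succ i ih =>
        intro hi
        obtain ⟨u, hu1, hu2⟩ := ih (by omega)
        obtain ⟨p, hp1, hp2, hp3⟩ := hl i (by omega)
        rw [hu1] at hp1
        have e : u = p.1 := Option.some.inj hp1
        subst e
        exact ⟨p.2, hp2, hu2.tail hp3⟩
    obtain ⟨u, hu1, hu2⟩ := key _ le_rfl
    rw [hl1] at hu1
    have e : c = u := Option.some.inj hu1
    rw [e]
    exact hu2

theorem rtg {α β : Type*} [Primcodable α] [Primcodable β] {r : α → β → β → Prop}
    (hr : REPred fun x : α × β × β => r x.1 x.2.1 x.2.2) :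
    REPred fun x : α × β × β => Relation.ReflTransGen (r x.1) x.2.1 x.2.2 := by
  have h1 : REPred fun x : α × β × β => ∃ l : List β, l[0]? = some x.2.1 ∧
      l[l.length - 1]? = some x.2.2 ∧ ∀ i < l.length - 1, ∃ p : β × β, l[i]? = some p.1 ∧
        l[i + 1]? = some p.2 ∧ r x.1 p.1 p.2 := by
    refine RE.ex (p := fun (x : α × β × β) (l : List β) => l[0]? = some x.2.1 ∧
      l[l.length - 1]? = some x.2.2 ∧ ∀ i < l.length - 1, ∃ p : β × β, l[i]? = some p.1 ∧
        l[i + 1]? = some p.2 ∧ r x.1 p.1 p.2) ?_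
    refine RE.and ?_ (RE.and ?_ ?_)
    · exact RE.eq (Computable.list_getElem?.comp Computable.snd (Computable.const 0))
        (Computable.option_some.comp (Computable.fst.comp (Computable.snd.comp Computable.fst)))
    · exact RE.eq (Computable.list_getElem?.comp Computable.snd
        (Primrec.nat_sub.to_comp.comp (Computable.list_length.comp Computable.snd) (Computable.const 1)))
        (Computable.option_some.comp (Computable.snd.comp (Computable.snd.comp Computable.fst)))
    · refine RE.all_lt (p := fun (x : (α × β × β) × List β) (i : ℕ) => ∃ p : β × β, x.2[i]? = some p.1 ∧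
        x.2[i + 1]? = some p.2 ∧ r x.1.1 p.1 p.2) ?_
        (Primrec.nat_sub.to_comp.comp (Computable.list_length.comp Computable.snd) (Computable.const 1))
      refine RE.ex (p := fun (x : ((α × β × β) × List β) × ℕ) (p : β × β) => x.1.2[x.2]? = some p.1 ∧
        x.1.2[x.2 + 1]? = some p.2 ∧ r x.1.1.1 p.1 p.2) ?_
      refine RE.and ?_ (RE.and ?_ ?_)
      · exact RE.eq (Computable.list_getElem?.comp (Computable.snd.comp (Computable.fst.comp Computable.fst)) (Computable.snd.comp Computable.fst))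
          (Computable.option_some.comp (Computable.fst.comp Computable.snd))
      · exact RE.eq (Computable.list_getElem?.comp (Computable.snd.comp (Computable.fst.comp Computable.fst)) (Computable.succ.comp (Computable.snd.comp Computable.fst)))
          (Computable.option_some.comp (Computable.snd.comp Computable.snd))
      · exact RE.comp (p := fun x : α × β × β => r x.1 x.2.1 x.2.2) hr
          (f := fun x : (((α × β × β) × List β) × ℕ) × (β × β) => (x.1.1.1.1, x.2.1, x.2.2))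
          ((Computable.fst.comp (Computable.fst.comp (Computable.fst.comp Computable.fst))).pair ((Computable.fst.comp Computable.snd).pair (Computable.snd.comp Computable.snd)))
  refine h1.of_eq fun x => ?_
  exact (rtg_iff (r x.1) x.2.1 x.2.2).symm

/-- The `e`-th r.e. set of natural numbers. -/
def W (e : ℕ) : Set ℕ :=
  {x | (Nat.Partrec.Code.eval (Denumerable.ofNat Nat.Partrec.Code e) x).Dom}

/-- The vector of exponents coded by a list. -/
def vec (k : ℕ) (l : List ℕ) : Fin k → ℕ := fun i => gd l i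

/-- The free commutative semigroup on `k` generators: the nonzero vectors of exponents. -/
def FS (k : ℕ) : Type := {v : Fin k → ℕ // v ≠ 0}

theorem add_ne {k : ℕ} {x : Fin k → ℕ} (h : x ≠ 0) (y : Fin k → ℕ) : x + y ≠ 0 := by
  intro h0
  apply h
  funext i
  have := congrFun h0 i
  simp only [Pi.add_apply, Pi.zero_apply, Nat.add_eq_zero_iff] at this
  exact this.1

instance (k : ℕ) : AddCommSemigroup (FS k) where
  add x y := ⟨x.1 + y.1, add_ne x.2 y.1⟩
  add_assoc x y z := Subtype.ext (add_assoc x.1 y.1 z.1)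
  add_comm x y := Subtype.ext (add_comm x.1 y.1)

theorem fs_add {k : ℕ} (x y : FS k) : (x + y).1 = x.1 + y.1 := rfl

/-- The relations listed by `W e`. -/
def Rel (k e : ℕ) (x y : FS k) : Prop :=
  ∃ a b : List ℕ, encode (a, b) ∈ W e ∧ vec k a = x.1 ∧ vec k b = y.1

/-- The congruence generated by the relations listed by `W e`. -/
def pres (k e : ℕ) : AddCon (FS k) := addConGen (Rel k e)

/-- One step on vectors. -/
def stepF (k e : ℕ) (x y : Fin k → ℕ) : Prop :=
  ∃ a b c : List ℕ, encode (a, b) ∈ W e ∧ vec k a ≠ 0 ∧ vec k b ≠ 0 ∧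
    ((x = vec k a + vec k c ∧ y = vec k b + vec k c) ∨
      (x = vec k b + vec k c ∧ y = vec k a + vec k c))

/-- One step on lists. -/
def stepL (k e : ℕ) (u v : List ℕ) : Prop :=
  (∀ i < k, gd u i = gd v i) ∨
  ∃ q : (List ℕ × List ℕ) × List ℕ, encode q.1 ∈ W e ∧ (∃ i, i < k ∧ gd q.1.1 i ≠ 0) ∧
    (∃ i, i < k ∧ gd q.1.2 i ≠ 0) ∧
    (((∀ i < k, gd u i = gd q.1.1 i + gd q.2 i) ∧ (∀ i < k, gd v i = gd q.1.2 i + gd q.2 i)) ∨
      ((∀ i < k, gd u i = gd q.1.2 i + gd q.2 i) ∧ (∀ i < k, gd v i = gd q.1.1 i + gd q.2 i)))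

theorem vec_ofFn {k : ℕ} (x : Fin k → ℕ) : vec k (List.ofFn x) = x := by
  funext i
  simp [vec, gd, List.getElem?_ofFn]

theorem vec_eq_iff {k : ℕ} {u v : List ℕ} : vec k u = vec k v ↔ ∀ i < k, gd u i = gd v i := by
  constructor
  · intro h i hi
    exact congrFun h ⟨i, hi⟩
  · intro h
    funext i
    exact h i i.2

theorem vec_eq_add_iff {k : ℕ} {u v w : List ℕ} :
    vec k u = vec k v + vec k w ↔ ∀ i < k, gd u i = gd v i + gd w i := by
  constructor
  · intro h i hi
    exact congrFun h ⟨i, hi⟩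
  · intro h
    funext i
    exact h i i.2

theorem vec_ne_iff {k : ℕ} {u : List ℕ} : vec k u ≠ 0 ↔ ∃ i, i < k ∧ gd u i ≠ 0 := by
  rw [Function.ne_iff]
  constructor
  · rintro ⟨i, hi⟩; exact ⟨i, i.2, hi⟩
  · rintro ⟨i, hi, h⟩; exact ⟨⟨i, hi⟩, h⟩

theorem stepL_iff {k e : ℕ} {u v : List ℕ} :
    stepL k e u v ↔ vec k u = vec k v ∨ stepF k e (vec k u) (vec k v) := by
  unfold stepL stepF
  rw [vec_eq_iff]
  refine or_congr Iff.rfl ?_
  constructor
  · rintro ⟨⟨⟨a, b⟩, c⟩, h1, h2, h3, h4⟩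
    refine ⟨a, b, c, h1, vec_ne_iff.2 h2, vec_ne_iff.2 h3, ?_⟩
    simpa only [vec_eq_add_iff] using h4
  · rintro ⟨a, b, c, h1, h2, h3, h4⟩
    refine ⟨⟨⟨a, b⟩, c⟩, h1, vec_ne_iff.1 h2, vec_ne_iff.1 h3, ?_⟩
    simpa only [vec_eq_add_iff] using h4

/-- The congruence, on lists. -/
def CongL (k e : ℕ) (u v : List ℕ) : Prop := Relation.ReflTransGen (stepL k e) u v

theorem congL_iff_F {k e : ℕ} {u v : List ℕ} :
    CongL k e u v ↔ Relation.ReflTransGen (stepF k e) (vec k u) (vec k v) := by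
  constructor
  · intro h
    refine Relation.ReflTransGen.lift' (vec k) ?_ _ _ h
    intro a b hab
    rcases stepL_iff.1 hab with h1 | h1
    · show Relation.ReflTransGen (stepF k e) (vec k a) (vec k b)
      rw [h1]
    · exact Relation.ReflTransGen.single h1
  · intro h
    have h1 : CongL k e (List.ofFn (vec k u)) (List.ofFn (vec k v)) := by
      refine Relation.ReflTransGen.lift List.ofFn ?_ _ _ h
      intro a b hab
      refine stepL_iff.2 ?_
      rw [vec_ofFn, vec_ofFn]
      exact Or.inr hab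
    refine Relation.ReflTransGen.head (stepL_iff.2 (Or.inl (vec_ofFn _).symm)) ?_
    refine Relation.ReflTransGen.tail h1 (stepL_iff.2 (Or.inl (vec_ofFn _)))

theorem stepF_symm {k e : ℕ} {x y : Fin k → ℕ} (h : stepF k e x y) : stepF k e y x := by
  obtain ⟨a, b, c, h1, h2, h3, h4⟩ := h
  refine ⟨a, b, c, h1, h2, h3, ?_⟩
  rcases h4 with ⟨h4, h5⟩ | ⟨h4, h5⟩
  · exact Or.inr ⟨h5, h4⟩
  · exact Or.inl ⟨h5, h4⟩

theorem stepF_add {k e : ℕ} {x y : Fin k → ℕ} (z : Fin k → ℕ) (h : stepF k e x y) :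
    stepF k e (x + z) (y + z) := by
  obtain ⟨a, b, c, h1, h2, h3, h4⟩ := h
  refine ⟨a, b, List.ofFn (vec k c + z), h1, h2, h3, ?_⟩
  rw [vec_ofFn]
  rcases h4 with ⟨h4, h5⟩ | ⟨h4, h5⟩
  · left; rw [h4, h5]; exact ⟨add_assoc _ _ _, add_assoc _ _ _⟩
  · right; rw [h4, h5]; exact ⟨add_assoc _ _ _, add_assoc _ _ _⟩

/-- The congruence, on vectors. -/
def congF (k e : ℕ) : AddCon (FS k) where
  r x y := Relation.ReflTransGen (stepF k e) x.1 y.1
  iseqv :=
    { refl := fun _ => .refl
      symm := fun {x y} h => by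
        have : Std.Symm (stepF k e) := ⟨fun a b => stepF_symm⟩
        exact (Relation.ReflTransGen.stdSymm (r := stepF k e)).symm _ _ h
      trans := fun h1 h2 => h1.trans h2 }
  add' := by
    intro w x y z h1 h2
    show Relation.ReflTransGen (stepF k e) (w.1 + y.1) (x.1 + z.1)
    have h3 : Relation.ReflTransGen (stepF k e) (w.1 + y.1) (x.1 + y.1) :=
      Relation.ReflTransGen.lift (· + y.1) (fun a b => stepF_add y.1) _ _ h1
    have h4 : Relation.ReflTransGen (stepF k e) (y.1 + x.1) (z.1 + x.1) :=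
      Relation.ReflTransGen.lift (· + x.1) (fun a b => stepF_add x.1) _ _ h2
    rw [add_comm y.1, add_comm z.1] at h4
    exact h3.trans h4

theorem pres_of_F {k e : ℕ} {x y : Fin k → ℕ} (h : Relation.ReflTransGen (stepF k e) x y)
    (hx : x ≠ 0) : ∃ hy : y ≠ 0, pres k e ⟨x, hx⟩ ⟨y, hy⟩ := by
  induction h with
  | refl => exact ⟨hx, (pres k e).refl _⟩
  | @tail y z h1 h2 ih =>
    obtain ⟨hy, ih⟩ := ih
    obtain ⟨a, b, c, h3, ha, hb, h4⟩ := h2
    have hab : pres k e ⟨vec k a, ha⟩ ⟨vec k b, hb⟩ := AddConGen.Rel.of _ _ ⟨a, b, h3, rfl, rfl⟩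
    have hab' : ∀ (c : Fin k → ℕ), pres k e ⟨vec k a + c, add_ne ha c⟩ ⟨vec k b + c, add_ne hb c⟩ := by
      intro c
      by_cases hc : c = 0
      · subst hc; simpa using hab
      · exact (pres k e).add hab ((pres k e).refl ⟨c, hc⟩)
    rcases h4 with ⟨h4, h5⟩ | ⟨h4, h5⟩
    · subst h4 h5
      exact ⟨add_ne hb _, (pres k e).trans ih (hab' _)⟩
    · subst h4 h5
      exact ⟨add_ne ha _, (pres k e).trans ih ((pres k e).symm (hab' _))⟩

theorem pres_iff {k e : ℕ} (x y : FS k) :
    pres k e x y ↔ Relation.ReflTransGen (stepF k e) x.1 y.1 := by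
  constructor
  · intro h
    have h1 : pres k e ≤ congF k e := by
      refine AddCon.addConGen_le.2 ?_
      rintro x y ⟨a, b, h1, h2, h3⟩
      refine Relation.ReflTransGen.single ⟨a, b, [], h1, h2 ▸ x.2, h3 ▸ y.2, Or.inl ?_⟩
      have h0 : vec k [] = 0 := by funext i; simp [vec]
      rw [h0, h2, h3]
      simp
    exact h1 h
  · intro h
    obtain ⟨_, h1⟩ := pres_of_F h x.2
    exact h1

theorem pres_iff_L {k e : ℕ} {x y : FS k} {u v : List ℕ} (hu : vec k u = x.1)
    (hv : vec k v = y.1) : pres k e x y ↔ CongL k e u v := by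
  rw [pres_iff, congL_iff_F, hu, hv]

theorem W_re : REPred fun x : ℕ × ℕ => x.2 ∈ W x.1 := by
  have h : Partrec fun x : ℕ × ℕ =>
      Nat.Partrec.Code.eval (Denumerable.ofNat Nat.Partrec.Code x.1) x.2 :=
    Nat.Partrec.Code.eval_part.comp ((Computable.ofNat _).comp Computable.fst) Computable.snd
  exact h.dom_re

theorem stepL_re : REPred fun x : (ℕ × ℕ) × List ℕ × List ℕ => stepL x.1.1 x.1.2 x.2.1 x.2.2 := by
  unfold stepL
  refine RE.or ?_ ?_
  · refine RE.all_lt (p := fun (x : (ℕ × ℕ) × List ℕ × List ℕ) i => gd x.2.1 i = gd x.2.2 i) ?_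
      (by fun_prop)
    exact RE.eq (by fun_prop) (by fun_prop)
  · refine RE.ex (p := fun (x : (ℕ × ℕ) × List ℕ × List ℕ) (q : (List ℕ × List ℕ) × List ℕ) =>
      encode q.1 ∈ W x.1.2 ∧ (∃ i, i < x.1.1 ∧ gd q.1.1 i ≠ 0) ∧
    (∃ i, i < x.1.1 ∧ gd q.1.2 i ≠ 0) ∧
    (((∀ i < x.1.1, gd x.2.1 i = gd q.1.1 i + gd q.2 i) ∧
      (∀ i < x.1.1, gd x.2.2 i = gd q.1.2 i + gd q.2 i)) ∨
      ((∀ i < x.1.1, gd x.2.1 i = gd q.1.2 i + gd q.2 i) ∧
        (∀ i < x.1.1, gd x.2.2 i = gd q.1.1 i + gd q.2 i)))) ?_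
    have hall : ∀ f g h : ((ℕ × ℕ) × List ℕ × List ℕ) × ((List ℕ × List ℕ) × List ℕ) → List ℕ,
        Computable f → Computable g → Computable h →
        REPred fun x : ((ℕ × ℕ) × List ℕ × List ℕ) × ((List ℕ × List ℕ) × List ℕ) =>
          ∀ i < x.1.1.1, gd (f x) i = gd (g x) i + gd (h x) i := by
      intro f g h hf hg hh
      refine RE.all_lt (p := fun (x : ((ℕ × ℕ) × List ℕ × List ℕ) × ((List ℕ × List ℕ) × List ℕ)) i
        => gd (f x) i = gd (g x) i + gd (h x) i) ?_ (by fun_prop)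
      exact RE.eq (by fun_prop) (by fun_prop)
    have hne : ∀ f : ((ℕ × ℕ) × List ℕ × List ℕ) × ((List ℕ × List ℕ) × List ℕ) → List ℕ,
        Computable f → 
        REPred fun x : ((ℕ × ℕ) × List ℕ × List ℕ) × ((List ℕ × List ℕ) × List ℕ) =>
          ∃ i, i < x.1.1.1 ∧ gd (f x) i ≠ 0 := by
      intro f hf
      refine RE.exN (p := fun (x : ((ℕ × ℕ) × List ℕ × List ℕ) × ((List ℕ × List ℕ) × List ℕ)) i
        => i < x.1.1.1 ∧ gd (f x) i ≠ 0) ?_
      exact RE.and (RE.lt (by fun_prop) (by fun_prop)) (RE.ne (by fun_prop) (by fun_prop))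
    refine RE.and ?_ (RE.and ?_ (RE.and ?_ (RE.or (RE.and ?_ ?_) (RE.and ?_ ?_))))
    · exact RE.comp (p := fun x : ℕ × ℕ => x.2 ∈ W x.1) W_re
        (f := fun x : ((ℕ × ℕ) × List ℕ × List ℕ) × ((List ℕ × List ℕ) × List ℕ) =>
          (x.1.1.2, encode x.2.1)) (by fun_prop)
    · exact hne (fun x => x.2.1.1) (by fun_prop)
    · exact hne (fun x => x.2.1.2) (by fun_prop)
    · exact hall (fun x => x.1.2.1) (fun x => x.2.1.1) (fun x => x.2.2) (by fun_prop)
        (by fun_prop) (by fun_prop)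
    · exact hall (fun x => x.1.2.2) (fun x => x.2.1.2) (fun x => x.2.2) (by fun_prop)
        (by fun_prop) (by fun_prop)
    · exact hall (fun x => x.1.2.1) (fun x => x.2.1.2) (fun x => x.2.2) (by fun_prop)
        (by fun_prop) (by fun_prop)
    · exact hall (fun x => x.1.2.2) (fun x => x.2.1.1) (fun x => x.2.2) (by fun_prop)
        (by fun_prop) (by fun_prop)

theorem congL_re : REPred fun x : (ℕ × ℕ) × List ℕ × List ℕ => CongL x.1.1 x.1.2 x.2.1 x.2.2 :=
  rtg (r := fun (x : ℕ × ℕ) (u v : List ℕ) => stepL x.1 x.2 u v) stepL_re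

end Pool.Agent.H314.OmOm
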