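import Mathlib
import Pool.Agent.H314.OmOm.Pres

set_option autoImplicit false

/-!
The rank of a monomial ideal: the numbers of maximal cylinders of each dimension in its complement.
-/

namespace Pool.Agent.H314.OmOm

open Encodable Pool.Agent.Helper446

/-- `g ≤ p`, where the entry `0` of `p` stands for infinity and the entry `m + 1` for `m`, and
where the entry `i` is ignored. -/
def leE (K i : ℕ) (g p : List ℕ) : Prop := ∀ j < K, j = i ∨ gd p j = 0 ∨ gd g j < gd p j

/-- `p` with entry `i` replaced by infinity is outside the ideal generated by the first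
components. -/
def out (K : ℕ) (F : List (List ℕ × List ℕ)) (i : ℕ) (p : List ℕ) : Prop :=
  ∀ q ∈ F, ¬ leE K i q.1 p

/-- `p` is a maximal cylinder of the complement. -/
def mx (K : ℕ) (F : List (List ℕ × List ℕ)) (p : List ℕ) : Prop :=
  out K F K p ∧ ∀ i < K, gd p i = 0 ∨ ¬ out K F i p

/-- The number of infinite entries. -/
def zc (p : List ℕ) : ℕ := p.count 0

/-- The maximal cylinders with `j` infinite entries. -/
def EE (K : ℕ) (F : List (List ℕ × List ℕ)) (j : ℕ) : Set (List ℕ) :=
  {p | p.length = K ∧ mx K F p ∧ zc p = j}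

/-- Their number. -/
noncomputable def cn (K : ℕ) (F : List (List ℕ × List ℕ)) (j : ℕ) : ℕ := (EE K F j).ncard

theorem gd_set {p : List ℕ} {i : ℕ} (hi : i < p.length) (j : ℕ) :
    gd (p.set i 0) j = if i = j then 0 else gd p j := by
  unfold gd
  rw [List.getElem?_set]
  split_ifs with h
  · rfl
  · rfl

theorem leE_set {K i : ℕ} {g p : List ℕ} (hi : i < K) (hp : p.length = K) :
    leE K K g (p.set i 0) ↔ leE K i g p := by
  unfold leE
  refine forall₂_congr fun j hj => ?_
  rw [gd_set (by omega)]
  by_cases h : i = j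
  · subst h; simp
  · simp [h, Ne.symm h, hj.ne]

theorem out_set {K i : ℕ} {F : List (List ℕ × List ℕ)} {p : List ℕ} (hi : i < K)
    (hp : p.length = K) : out K F K (p.set i 0) ↔ out K F i p := by
  unfold out
  refine forall₂_congr fun q _ => ?_
  rw [leE_set hi hp]

theorem leE_of_K {K i : ℕ} {g p : List ℕ} (h : leE K K g p) : leE K i g p := by
  intro j hj
  rcases h j hj with h1 | h1
  · omega
  · exact Or.inr h1

theorem gd_eq_getElem {p : List ℕ} {i : ℕ} (hi : i < p.length) : gd p i = p[i] := by
  simp [gd, hi]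

theorem zc_set {K i : ℕ} {p : List ℕ} (hi : i < K) (hp : p.length = K) (h : gd p i ≠ 0) :
    zc (p.set i 0) = zc p + 1 := by
  have hi' : i < p.length := by omega
  rw [gd_eq_getElem hi'] at h
  unfold zc
  rw [List.count_set hi']
  have h1 : (p[i] == 0) = false := by simpa using h
  simp [h1]

theorem zc_le {p : List ℕ} : zc p ≤ p.length := List.count_le_length

theorem mx_bound {K B : ℕ} {F : List (List ℕ × List ℕ)} (hB : ∀ q ∈ F, ∀ i < K, gd q.1 i < B)
    {p : List ℕ} (h : mx K F p) : ∀ i < K, gd p i < B + 1 := by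
  intro i hi
  rcases h.2 i hi with h1 | h1
  · omega
  · unfold out at h1
    push Not at h1
    obtain ⟨q, hq, h2⟩ := h1
    have h3 := h.1 q hq
    unfold leE at h3
    push Not at h3
    obtain ⟨j, hj, h4, h5, h6⟩ := h3
    rcases h2 j hj with h7 | h7 | h7
    · subst h7
      have := hB q hq j hj
      omega
    · exact absurd h7 h5
    · omega

/-- All lists of length `l` with entries below `B`. -/
def allL (B : ℕ) : ℕ → List (List ℕ)
  | 0 => [[]]
  | l + 1 => (allL B l).flatMap fun L => (List.range B).map fun j => j :: L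

theorem mem_allL (B : ℕ) : ∀ (l : ℕ) (L : List ℕ), L ∈ allL B l ↔ L.length = l ∧ ∀ j ∈ L, j < B
  | 0, L => by
    simp only [allL, List.mem_singleton, List.length_eq_zero_iff]
    constructor
    · rintro rfl; simp
    · exact fun h => h.1
  | l + 1, L => by
    simp only [allL, List.mem_flatMap, List.mem_map, List.mem_range]
    constructor
    · rintro ⟨L', h1, j, h2, rfl⟩
      rw [mem_allL B l] at h1
      refine ⟨by simp [h1.1], ?_⟩
      intro i hi
      rcases List.mem_cons.1 hi with rfl | hi
      · exact h2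
      · exact h1.2 i hi
    · rintro ⟨h1, h2⟩
      cases L with
      | nil => simp at h1
      | cons j L =>
        refine ⟨L, (mem_allL B l L).2 ⟨by simpa using h1, fun i hi => h2 i (List.mem_cons_of_mem _ hi)⟩,
          j, h2 j List.mem_cons_self, rfl⟩

theorem nodup_allL (B : ℕ) : ∀ l : ℕ, (allL B l).Nodup
  | 0 => by simp [allL]
  | l + 1 => by
    rw [allL, List.nodup_flatMap]
    constructor
    · intro L _
      exact List.Nodup.map (fun a b h => by simpa using h) List.nodup_range
    · refine (nodup_allL B l).imp ?_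
      intro L L' hne
      show List.Disjoint _ _
      intro x hx hx'
      simp only [List.mem_map] at hx hx'
      obtain ⟨a, -, rfl⟩ := hx
      obtain ⟨b, -, h⟩ := hx'
      simp only [List.cons.injEq] at h
      exact hne h.2.symm

theorem allL_c : Computable fun x : ℕ × ℕ => allL x.1 x.2 := by
  have h : Primrec fun x : ℕ × ℕ => allL x.1 x.2 := by
    have h1 := Primrec.nat_rec' (α := ℕ × ℕ) (β := List (List ℕ)) (f := fun x => x.2)
      (g := fun _ => [[]])
      (h := fun x y => (y.2).flatMap fun L => (List.range x.1).map fun j => j :: L)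
      Primrec.snd (Primrec.const _) (by
        refine Primrec.list_flatMap (f := fun p : (ℕ × ℕ) × (ℕ × List (List ℕ)) => p.2.2)
          (g := fun p L => (List.range p.1.1).map fun j => j :: L)
          (Primrec.snd.comp Primrec.snd) ?_
        refine Primrec.list_map (f := fun p : ((ℕ × ℕ) × (ℕ × List (List ℕ))) × List ℕ =>
          List.range p.1.1.1) (g := fun p j => j :: p.2) ?_ ?_
        · exact Primrec.list_range.comp
            (Primrec.fst.comp (Primrec.fst.comp Primrec.fst))
        · exact (Primrec.list_cons.comp Primrec.snd (Primrec.snd.comp Primrec.fst)).to₂)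
    refine h1.of_eq fun x => ?_
    obtain ⟨B, l⟩ := x
    have h2 : ∀ l : ℕ, (Nat.rec (motive := fun _ => List (List ℕ)) [[]]
        (fun _ y => y.flatMap fun L => (List.range B).map fun j => j :: L) l) = allL B l := by
      intro l
      induction l with
      | zero => rfl
      | succ l ih => rw [allL, ← ih]
    exact h2 l
  exact h.to_comp

@[fun_prop] theorem allL_comp {α : Type*} [Primcodable α] {f g : α → ℕ}
    (hf : Computable f) (hg : Computable g) : Computable fun x => allL (f x) (g x) :=
  allL_c.comp (hf.pair hg)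

theorem countP_c {α β : Type*} [Primcodable α] [Primcodable β] {f : α → List β} {q : α → β → Bool}
    (hf : Computable f) (hq : Computable₂ q) : Computable fun a => (f a).countP (q a) := by
  have hq' : Computable fun x : α × β => q x.1 x.2 := hq
  have h := RE.list_foldl (f := f) (g := fun _ : α => (0 : ℕ))
    (h := fun a y => bif q a y.2 then y.1 + 1 else y.1) hf (Computable.const 0) (by
      unfold Computable₂
      refine Computable.cond (f := fun x : α × (ℕ × β) => x.2.1 + 1) (g := fun x => x.2.1)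
        (hq'.comp (f := fun x : α × β => q x.1 x.2) (g := fun x : α × (ℕ × β) => (x.1, x.2.2))
          (by fun_prop)) (by fun_prop) (by fun_prop))
  refine h.of_eq fun a => ?_
  have key : ∀ (l : List β) (s : ℕ),
      l.foldl (fun s b => bif q a b then s + 1 else s) s = s + l.countP (q a) := by
    intro l
    induction l with
    | nil => intro s; simp
    | cons b l ih =>
      intro s
      rw [List.foldl_cons, ih, List.countP_cons]
      cases q a b <;> simp <;> omega
  have := key (f a) 0
  simpa using this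

@[fun_prop] theorem zc_c : Computable zc := by
  have h := countP_c (f := fun x : List ℕ => x) (q := fun _ a => decide (a = 0)) Computable.id (by
    unfold Computable₂
    exact RE.cdecide (RE.cp_eq (f := fun x : List ℕ × ℕ => x.2) (by fun_prop) (by fun_prop)))
  refine h.of_eq fun p => ?_
  unfold zc
  rw [List.count]
  congr 1

/-- The type of the arguments. -/
abbrev Arg := (ℕ × List (List ℕ × List ℕ)) × (ℕ × List ℕ)

theorem leE_re {α : Type*} [Primcodable α] {K i : α → ℕ} {g p : α → List ℕ} (hK : Computable K)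
    (hi : Computable i) (hg : Computable g) (hp : Computable p) :
    REPred fun x => leE (K x) (i x) (g x) (p x) := by
  unfold leE
  refine RE.all_lt (p := fun x j => j = i x ∨ gd (p x) j = 0 ∨ gd (g x) j < gd (p x) j) ?_ hK
  exact RE.or (RE.eq (by fun_prop) (by fun_prop)) (RE.or (RE.eq (by fun_prop) (by fun_prop))
    (RE.lt (by fun_prop) (by fun_prop)))

theorem not_leE_re {α : Type*} [Primcodable α] {K i : α → ℕ} {g p : α → List ℕ}
    (hK : Computable K) (hi : Computable i) (hg : Computable g) (hp : Computable p) :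
    REPred fun x => ¬ leE (K x) (i x) (g x) (p x) := by
  have h : REPred fun x => ∃ j, j < K x ∧ j ≠ i x ∧ gd (p x) j ≠ 0 ∧ gd (p x) j ≤ gd (g x) j := by
    refine RE.exN (p := fun x j => j < K x ∧ j ≠ i x ∧ gd (p x) j ≠ 0 ∧ gd (p x) j ≤ gd (g x) j) ?_
    exact RE.and (RE.lt (by fun_prop) (by fun_prop)) (RE.and (RE.ne (by fun_prop) (by fun_prop))
      (RE.and (RE.ne (by fun_prop) (by fun_prop)) (RE.le (by fun_prop) (by fun_prop))))
  refine h.of_eq fun x => ?_
  unfold leE
  push Not
  rfl

theorem out_re {α : Type*} [Primcodable α] {K i : α → ℕ} {F : α → List (List ℕ × List ℕ)}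
    {p : α → List ℕ} (hK : Computable K) (hF : Computable F) (hi : Computable i)
    (hp : Computable p) : REPred fun x => out (K x) (F x) (i x) (p x) := by
  unfold out
  refine RE.all_mem (p := fun x (q : List ℕ × List ℕ) => ¬ leE (K x) (i x) q.1 (p x)) ?_ hF
  exact not_leE_re (α := α × (List ℕ × List ℕ)) (by fun_prop) (by fun_prop) (by fun_prop)
    (by fun_prop)

theorem not_out_re {α : Type*} [Primcodable α] {K i : α → ℕ} {F : α → List (List ℕ × List ℕ)}
    {p : α → List ℕ} (hK : Computable K) (hF : Computable F) (hi : Computable i)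
    (hp : Computable p) : REPred fun x => ¬ out (K x) (F x) (i x) (p x) := by
  have h : REPred fun x => ∃ q ∈ F x, leE (K x) (i x) q.1 (p x) := by
    refine RE.ex_mem (p := fun x (q : List ℕ × List ℕ) => leE (K x) (i x) q.1 (p x)) ?_ hF
    exact leE_re (α := α × (List ℕ × List ℕ)) (by fun_prop) (by fun_prop) (by fun_prop)
      (by fun_prop)
  refine h.of_eq fun x => ?_
  unfold out
  push Not
  rfl

theorem mx_re {α : Type*} [Primcodable α] {K : α → ℕ} {F : α → List (List ℕ × List ℕ)}
    {p : α → List ℕ} (hK : Computable K) (hF : Computable F)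
    (hp : Computable p) : REPred fun x => mx (K x) (F x) (p x) := by
  unfold mx
  refine RE.and (out_re hK hF hK hp) ?_
  refine RE.all_lt (p := fun x i => gd (p x) i = 0 ∨ ¬ out (K x) (F x) i (p x)) ?_ hK
  exact RE.or (RE.eq (by fun_prop) (by fun_prop))
    (not_out_re (by fun_prop) (by fun_prop) (by fun_prop) (by fun_prop))

theorem not_mx_re {α : Type*} [Primcodable α] {K : α → ℕ} {F : α → List (List ℕ × List ℕ)}
    {p : α → List ℕ} (hK : Computable K) (hF : Computable F)
    (hp : Computable p) : REPred fun x => ¬ mx (K x) (F x) (p x) := by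
  have h : REPred fun x => ¬ out (K x) (F x) (K x) (p x) ∨
      ∃ i, i < K x ∧ gd (p x) i ≠ 0 ∧ out (K x) (F x) i (p x) := by
    refine RE.or (not_out_re hK hF hK hp) ?_
    refine RE.exN (p := fun x i => i < K x ∧ gd (p x) i ≠ 0 ∧ out (K x) (F x) i (p x)) ?_
    exact RE.and (RE.lt (by fun_prop) (by fun_prop)) (RE.and (RE.ne (by fun_prop) (by fun_prop))
      (out_re (by fun_prop) (by fun_prop) (by fun_prop) (by fun_prop)))
  refine h.of_eq fun x => ?_
  unfold mx
  rw [not_and_or]
  push Not
  rfl

open Classical in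
/-- The number of maximal cylinders, computed from a bound. -/
noncomputable def cnB (B K : ℕ) (F : List (List ℕ × List ℕ)) (j : ℕ) : ℕ :=
  (allL (B + 1) K).countP fun p => decide (mx K F p) && decide (zc p = j)

theorem cnB_c : Computable fun x : (ℕ × ℕ) × (List (List ℕ × List ℕ) × ℕ) =>
    cnB x.1.1 x.1.2 x.2.1 x.2.2 := by
  classical
  unfold cnB
  refine countP_c (f := fun x : (ℕ × ℕ) × (List (List ℕ × List ℕ) × ℕ) => allL (x.1.1 + 1) x.1.2)
    (q := fun x p => decide (mx x.1.2 x.2.1 p) && decide (zc p = x.2.2)) (by fun_prop) ?_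
  unfold Computable₂
  refine RE.cand ?_ ?_
  · refine RE.cdecide (p := fun x : ((ℕ × ℕ) × (List (List ℕ × List ℕ) × ℕ)) × List ℕ =>
      mx x.1.1.2 x.1.2.1 x.2) (RE.cp_of_re ?_ ?_)
    · exact mx_re (by fun_prop) (by fun_prop) (by fun_prop)
    · exact not_mx_re (by fun_prop) (by fun_prop) (by fun_prop)
  · refine RE.cdecide (p := fun x : ((ℕ × ℕ) × (List (List ℕ × List ℕ) × ℕ)) × List ℕ =>
      zc x.2 = x.1.2.2) (RE.cp_eq (by fun_prop) (by fun_prop))

theorem EE_subset {K B : ℕ} {F : List (List ℕ × List ℕ)} (hB : ∀ q ∈ F, ∀ i < K, gd q.1 i < B)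
    (j : ℕ) {p : List ℕ} (hp : p ∈ EE K F j) : p ∈ allL (B + 1) K := by
  rw [mem_allL]
  refine ⟨hp.1, fun a ha => ?_⟩
  obtain ⟨i, hi, rfl⟩ := List.getElem_of_mem ha
  have := mx_bound hB hp.2.1 i (by rw [← hp.1]; exact hi)
  rwa [gd_eq_getElem hi] at this

theorem cn_eq {K B : ℕ} {F : List (List ℕ × List ℕ)} (hB : ∀ q ∈ F, ∀ i < K, gd q.1 i < B)
    (j : ℕ) : cn K F j = cnB B K F j := by
  classical
  unfold cn cnB
  rw [List.countP_eq_length_filter]
  have h1 : EE K F j = (((allL (B + 1) K).filter
      fun p => decide (mx K F p) && decide (zc p = j)).toFinset : Set (List ℕ)) := by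
    ext p
    simp only [List.coe_toFinset, List.mem_filter, Bool.and_eq_true, decide_eq_true_eq,
      Set.mem_ofPred_eq]
    constructor
    · intro hp; exact ⟨EE_subset hB j hp, hp.2⟩
    · rintro ⟨h1, h2⟩
      exact ⟨((mem_allL _ _ _).1 h1).1, h2⟩
  rw [h1, Set.ncard_coe_finset, List.toFinset_card_of_nodup]
  exact (nodup_allL _ _).filter _

theorem exists_bound (K : ℕ) (F : List (List ℕ × List ℕ)) :
    ∃ B, ∀ q ∈ F, ∀ i < K, gd q.1 i < B := by
  induction F with
  | nil => exact ⟨0, by simp⟩
  | cons q F ih =>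
    obtain ⟨B, hB⟩ := ih
    refine ⟨B + ((Finset.range K).sup fun i => gd q.1 i + 1), ?_⟩
    intro r hr i hi
    rcases List.mem_cons.1 hr with rfl | hr
    · have : gd r.1 i + 1 ≤ (Finset.range K).sup fun i => gd r.1 i + 1 :=
        Finset.le_sup (f := fun i => gd r.1 i + 1) (Finset.mem_range.2 hi)
      omega
    · have := hB r hr i hi
      omega

theorem EE_finite (K : ℕ) (F : List (List ℕ × List ℕ)) (j : ℕ) : (EE K F j).Finite := by
  obtain ⟨B, hB⟩ := exists_bound K F
  exact ((allL (B + 1) K).toFinset.finite_toSet).subset fun p hp => by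
    simpa using EE_subset hB j hp

theorem cn_mono {K : ℕ} {F : List (List ℕ × List ℕ)} {q : List ℕ × List ℕ}
    (hq : ∀ r ∈ F, ¬ ∀ i < K, gd r.1 i ≤ gd q.1 i) :
    ∃ j ≤ K, cn K (q :: F) j < cn K F j ∧ ∀ j', j < j' → cn K (q :: F) j' = cn K F j' := by
  classical
  let Q : ℕ → Prop := fun j => ∃ p : List ℕ, p.length = K ∧ out K F K p ∧
    ¬ out K (q :: F) K p ∧ zc p = j
  have hout : ∀ i p, out K (q :: F) i p → out K F i p :=
    fun i p h r hr => h r (List.mem_cons_of_mem _ hr)
  -- the first witness
  have hex : ∃ j ≤ K, Q j := by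
    let p : List ℕ := List.ofFn fun i : Fin K => gd q.1 i + 1
    have hpl : p.length = K := by simp [p]
    have hpg : ∀ i < K, gd p i = gd q.1 i + 1 := by
      intro i hi
      have : i < p.length := by omega
      rw [gd_eq_getElem this]
      simp [p]
    refine ⟨zc p, by rw [← hpl]; exact zc_le, p, hpl, ?_, ?_, rfl⟩
    · intro r hr h
      apply hq r hr
      intro i hi
      rcases h i hi with h1 | h1 | h1
      · omega
      · rw [hpg i hi] at h1; omega
      · rw [hpg i hi] at h1; omega
    · intro h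
      apply h q List.mem_cons_self
      intro i hi
      right; right
      rw [hpg i hi]; omega
  obtain ⟨j, hjK, hj, hmax⟩ : ∃ j ≤ K, Q j ∧ ∀ j', j < j' → ¬ Q j' := by
    obtain ⟨j0, hj0, hQ0⟩ := hex
    refine ⟨Nat.findGreatest Q K, Nat.findGreatest_le K, Nat.findGreatest_spec hj0 hQ0, ?_⟩
    intro j' hj' hQ'
    by_cases h : j' ≤ K
    · exact Nat.findGreatest_is_greatest hj' h hQ'
    · obtain ⟨p, hp1, -, -, hp4⟩ := hQ'
      have := zc_le (p := p)
      omega
  have heq : ∀ p : List ℕ, p.length = K → j < zc p → (out K (q :: F) K p ↔ out K F K p) := by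
    intro p hp hz
    refine ⟨hout K p, fun h => ?_⟩
    by_contra hn
    exact hmax _ hz ⟨p, hp, h, hn, rfl⟩
  have heq' : ∀ p : List ℕ, p.length = K → j ≤ zc p → ∀ i < K, gd p i ≠ 0 →
      (out K (q :: F) i p ↔ out K F i p) := by
    intro p hp hz i hi hg
    rw [← out_set hi hp, ← out_set hi hp]
    exact heq _ (by simpa using hp) (by rw [zc_set hi hp hg]; omega)
  have hrest : ∀ p : List ℕ, p.length = K → j ≤ zc p →
      ((∀ i < K, gd p i = 0 ∨ ¬ out K (q :: F) i p) ↔ (∀ i < K, gd p i = 0 ∨ ¬ out K F i p)) := by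
    intro p hp hz
    refine forall₂_congr fun i hi => ?_
    by_cases hg : gd p i = 0
    · simp [hg]
    · rw [heq' p hp hz i hi hg]
  refine ⟨j, hjK, ?_, ?_⟩
  · obtain ⟨p0, hp1, hp2, hp3, hp4⟩ := hj
    refine Set.ncard_lt_ncard ?_ (EE_finite K F j)
    refine ⟨?_, ?_⟩
    · rintro p ⟨h1, ⟨h2, h3⟩, h4⟩
      exact ⟨h1, ⟨hout _ _ h2, (hrest p h1 (by omega)).1 h3⟩, h4⟩
    · intro hsub
      have hmem : p0 ∈ EE K F j := by
        refine ⟨hp1, ⟨hp2, fun i hi => ?_⟩, hp4⟩
        by_cases hg : gd p0 i = 0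
        · exact Or.inl hg
        · right
          rw [← heq' p0 hp1 (by omega) i hi hg]
          intro hc
          apply hp3
          intro r hr hle
          exact hc r hr (leE_of_K hle)
      exact hp3 (hsub hmem).2.1.1
  · intro j' hj'
    unfold cn
    congr 1
    ext p
    constructor
    · rintro ⟨h1, ⟨h2, h3⟩, h4⟩
      exact ⟨h1, ⟨(heq p h1 (by omega)).1 h2, (hrest p h1 (by omega)).1 h3⟩, h4⟩
    · rintro ⟨h1, ⟨h2, h3⟩, h4⟩
      exact ⟨h1, ⟨(heq p h1 (by omega)).2 h2, (hrest p h1 (by omega)).2 h3⟩, h4⟩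

/-- The coded Cantor normal form attached to a finite system of relations. -/
noncomputable def cl (K : ℕ) (F : List (List ℕ × List ℕ)) : List ℕ :=
  (List.ofFn fun i : Fin (K + 1) => cn K F (K - i)) ++ [encode (K, F)]

theorem cl_length (K : ℕ) (F : List (List ℕ × List ℕ)) : (cl K F).length = K + 2 := by
  simp [cl]

theorem gd_cl {K : ℕ} {F : List (List ℕ × List ℕ)} {i : ℕ} (hi : i < K + 1) :
    gd (cl K F) i = cn K F (K - i) := by
  rw [gd_eq_getElem (by rw [cl_length]; omega)]
  unfold cl
  rw [List.getElem_append_left (by simpa using hi), List.getElem_ofFn]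

theorem gd_cl_last (K : ℕ) (F : List (List ℕ × List ℕ)) :
    gd (cl K F) (K + 1) = encode (K, F) := by
  rw [gd_eq_getElem (by rw [cl_length]; omega)]
  unfold cl
  rw [List.getElem_append_right (by simp)]
  simp

theorem eq_cl_iff {K : ℕ} {F : List (List ℕ × List ℕ)} {l : List ℕ} :
    l = cl K F ↔ l.length = K + 2 ∧ gd l (K + 1) = encode (K, F) ∧
      ∀ i < K + 1, gd l i = cn K F (K - i) := by
  constructor
  · rintro rfl
    exact ⟨cl_length K F, gd_cl_last K F, fun i hi => gd_cl hi⟩
  · rintro ⟨h1, h2, h3⟩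
    refine List.ext_getElem (by rw [h1, cl_length]) fun i hi hi' => ?_
    rw [← gd_eq_getElem hi, ← gd_eq_getElem hi']
    rcases Nat.lt_or_ge i (K + 1) with h | h
    · rw [h3 i h, gd_cl h]
    · have : i = K + 1 := by omega
      subst this
      rw [h2, gd_cl_last]

theorem cl_inj {K K' : ℕ} {F F' : List (List ℕ × List ℕ)} (h : cl K F = cl K' F') :
    K = K' ∧ F = F' := by
  have h1 : K = K' := by
    have := congrArg List.length h
    rw [cl_length, cl_length] at this
    omega
  subst h1
  have h2 := gd_cl_last K F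
  rw [h, gd_cl_last] at h2
  have := encode_injective h2
  simp only [Prod.mk.injEq, true_and] at this
  exact ⟨rfl, this.symm⟩

theorem cl_lt {K : ℕ} {F : List (List ℕ × List ℕ)} {q : List ℕ × List ℕ}
    (hq : ∀ r ∈ F, ¬ ∀ i < K, gd r.1 i ≤ gd q.1 i) :
    cnf (cl K (q :: F)) < cnf (cl K F) := by
  obtain ⟨j, hj, h1, h2⟩ := cn_mono hq
  rw [cnf_lt_iff]
  right
  refine ⟨by rw [cl_length, cl_length], K - j, by rw [cl_length]; omega, ?_, ?_⟩
  · intro i hi
    rw [gd_cl (by omega), gd_cl (by omega)]
    exact h2 _ (by omega)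
  · rw [gd_cl (by omega), gd_cl (by omega)]
    have : K - (K - j) = j := by omega
    rw [this]
    exact h1

end Pool.Agent.H314.OmOm
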