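import Mathlib
import Pool.Agent.H314.OmOm.Rank

set_option autoImplicit false

/-!
Reduction with respect to a finite system of oriented relations.
-/

namespace Pool.Agent.H314.OmOm

open Encodable

/-- The presented semigroup. -/
abbrev Sg (k e : ℕ) : Type := (pres k e).Quotient

/-- The generator `i`. -/
def gen {K : ℕ} (i : Fin K) : FS K := ⟨Pi.single i 1, by simp⟩

theorem fs_ind {K : ℕ} {P : FS K → Prop} (hg : ∀ i, P (gen i))
    (ha : ∀ x y, P x → P y → P (x + y)) : ∀ x, P x := by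
  have key : ∀ (n : ℕ) (x : FS K), ∑ i, x.1 i = n → P x := by
    intro n
    induction n with
    | zero =>
      intro x hx
      exfalso
      apply x.2
      funext i
      have := Finset.sum_eq_zero_iff.1 hx i (Finset.mem_univ i)
      simpa using this
    | succ n ih =>
      intro x hx
      obtain ⟨i, hi⟩ := Function.ne_iff.1 x.2
      have hi' : 1 ≤ x.1 i := Nat.one_le_iff_ne_zero.2 (by simpa using hi)
      have hx1 : x.1 = Pi.single i 1 + (x.1 - Pi.single i 1) := by
        funext j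
        by_cases h : j = i
        · subst h; simp; omega
        · simp [h]
      by_cases h0 : x.1 - Pi.single i 1 = 0
      · have : x = gen i := by
          apply Subtype.ext
          rw [hx1, h0, add_zero]
          rfl
        rw [this]; exact hg i
      · have h2 : x = gen i + ⟨x.1 - Pi.single i 1, h0⟩ := Subtype.ext hx1
        rw [h2]
        refine ha _ _ (hg i) (ih _ ?_)
        have h3 : ∑ j, x.1 j = ∑ j, (Pi.single i 1 + (x.1 - Pi.single i 1) : Fin K → ℕ) j := by
          rw [← hx1]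
        simp only [Pi.add_apply, Finset.sum_add_distrib] at h3
        rw [hx] at h3
        have h4 : ∑ j, (Pi.single i 1 : Fin K → ℕ) j = 1 := by simp
        rw [h4] at h3
        show ∑ j, (x.1 - Pi.single i 1 : Fin K → ℕ) j = n
        omega
  intro x
  exact key _ x rfl

/-- The oriented relations `F` hold under `π`. -/
def Good {S : Type} (K : ℕ) (F : List (List ℕ × List ℕ)) (π : FS K → S) : Prop :=
  ∀ q ∈ F, ∃ (h1 : vec K q.1 ≠ 0) (h2 : vec K q.2 ≠ 0),
    toLex (vec K q.2) < toLex (vec K q.1) ∧ π ⟨_, h1⟩ = π ⟨_, h2⟩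

/-- The set attached to a semigroup. -/
def WS (S : Type) [Add S] : Set ℕ :=
  {x | ∃ (K : ℕ) (F : List (List ℕ × List ℕ)), lst x = cl K F ∧
    ∃ π : AddHom (FS K) S, Function.Surjective π ∧ Good K F π}

theorem WS_iso_sub {S T : Type} [Add S] [Add T] (f : S ≃+ T) : WS S ⊆ WS T := by
  rintro x ⟨K, F, h1, π, h2, h3⟩
  refine ⟨K, F, h1, f.toAddHom.comp π, f.surjective.comp h2, fun q hq => ?_⟩
  obtain ⟨a, b, c, d⟩ := h3 q hq
  exact ⟨a, b, c, congrArg f d⟩

theorem WS_iso {S T : Type} [Add S] [Add T] (f : S ≃+ T) : WS S = WS T :=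
  Set.Subset.antisymm (WS_iso_sub f) (WS_iso_sub f.symm)

/-- The relations `F`. -/
def gR (K : ℕ) (F : List (List ℕ × List ℕ)) (a b : FS K) : Prop :=
  ∃ q ∈ F, vec K q.1 = a.1 ∧ vec K q.2 = b.1

/-- The congruence generated by `F`. -/
def gC (K : ℕ) (F : List (List ℕ × List ℕ)) : AddCon (FS K) := addConGen (gR K F)

theorem lex_add {K : ℕ} {a b : Fin K → ℕ} (c : Fin K → ℕ) (h : toLex a < toLex b) :
    toLex (a + c) < toLex (b + c) := by
  obtain ⟨i, h1, h2⟩ := h
  refine ⟨i, fun j hj => ?_, ?_⟩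
  · have := h1 j hj
    show a j + c j = b j + c j
    have h3 : a j = b j := this
    rw [h3]
  · show a i + c i < b i + c i
    have h3 : a i < b i := h2
    omega

theorem exists_irred {S : Type} [Add S] {K : ℕ} {F : List (List ℕ × List ℕ)}
    {π : AddHom (FS K) S} (hF : Good K F π) (u : FS K) :
    ∃ v : FS K, gC K F u v ∧ ∀ q ∈ F, ¬ vec K q.1 ≤ v.1 := by
  have hwf : WellFounded (fun a b : FS K => toLex a.1 < toLex b.1) :=
    InvImage.wf (fun a : FS K => toLex a.1) wellFounded_lt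
  induction u using hwf.induction with
  | _ u ih =>
  by_cases h : ∀ q ∈ F, ¬ vec K q.1 ≤ u.1
  · exact ⟨u, (gC K F).refl u, h⟩
  · push Not at h
    obtain ⟨q, hq, hle⟩ := h
    obtain ⟨h1, h2, h3, -⟩ := hF q hq
    let c : Fin K → ℕ := u.1 - vec K q.1
    have hu : u.1 = vec K q.1 + c := by
      funext i
      exact (Nat.add_sub_of_le (hle i)).symm
    have hcon : gC K F u ⟨vec K q.2 + c, add_ne h2 c⟩ := by
      have hab : gC K F ⟨vec K q.1, h1⟩ ⟨vec K q.2, h2⟩ := AddConGen.Rel.of _ _ ⟨q, hq, rfl, rfl⟩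
      by_cases hc : c = 0
      · have e1 : u = ⟨vec K q.1, h1⟩ := Subtype.ext (by rw [hu, hc, add_zero])
        have e2 : (⟨vec K q.2 + c, add_ne h2 c⟩ : FS K) = ⟨vec K q.2, h2⟩ :=
          Subtype.ext (by show vec K q.2 + c = vec K q.2; rw [hc, add_zero])
        rw [e1, e2]
        exact hab
      · have e1 : u = ⟨vec K q.1, h1⟩ + ⟨c, hc⟩ := Subtype.ext hu
        rw [e1]
        exact (gC K F).add hab ((gC K F).refl ⟨c, hc⟩)
    obtain ⟨v, hv1, hv2⟩ := ih ⟨vec K q.2 + c, add_ne h2 c⟩ (by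
      show toLex (vec K q.2 + c) < toLex u.1
      rw [hu]
      exact lex_add c h3)
    exact ⟨v, (gC K F).trans hcon hv1, hv2⟩

theorem gC_le {S : Type} [Add S] {K : ℕ} {F : List (List ℕ × List ℕ)}
    {π : AddHom (FS K) S} (hF : Good K F π) {a b : FS K} (h : gC K F a b) : π a = π b := by
  let c : AddCon (FS K) :=
    { r := fun a b => π a = π b
      iseqv := ⟨fun _ => rfl, fun h => h.symm, fun h1 h2 => h1.trans h2⟩
      add' := fun {w x y z} h1 h2 => by rw [map_add, map_add, h1, h2] }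
  have h1 : gC K F ≤ c := by
    refine AddCon.addConGen_le.2 ?_
    rintro x y ⟨q, hq, h2, h3⟩
    obtain ⟨h4, h5, -, h6⟩ := hF q hq
    have e1 : x = ⟨vec K q.1, h4⟩ := Subtype.ext h2.symm
    have e2 : y = ⟨vec K q.2, h5⟩ := Subtype.ext h3.symm
    show π x = π y
    rw [e1, e2]
    exact h6
  exact h1 h

theorem ker_eq {S : Type} [Add S] {K : ℕ} {F : List (List ℕ × List ℕ)}
    {π : AddHom (FS K) S} (hs : Function.Surjective π) (hF : Good K F π)
    {x : ℕ} (hx : lst x = cl K F) (hmin : ∀ y ∈ WS S, ¬ Ord y x) (a b : FS K) :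
    gC K F a b ↔ π a = π b := by
  refine ⟨gC_le hF, fun hab => ?_⟩
  -- no irreducible pair
  have key : ∀ u v : FS K, π u = π v → (∀ q ∈ F, ¬ vec K q.1 ≤ u.1) →
      ¬ toLex v.1 < toLex u.1 := by
    intro u v huv hu hlt
    let q : List ℕ × List ℕ := (List.ofFn u.1, List.ofFn v.1)
    refine hmin (encode (cl K (q :: F))) ⟨K, q :: F, lst_encode _, π, hs, ?_⟩ ?_
    · intro r hr
      rcases List.mem_cons.1 hr with rfl | hr
      · have e1 : vec K q.1 = u.1 := vec_ofFn _
        have e2 : vec K q.2 = v.1 := vec_ofFn _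
        refine ⟨by rw [e1]; exact u.2, by rw [e2]; exact v.2, by rw [e1, e2]; exact hlt, ?_⟩
        have e3 : (⟨vec K q.1, by rw [e1]; exact u.2⟩ : FS K) = u := Subtype.ext e1
        have e4 : (⟨vec K q.2, by rw [e2]; exact v.2⟩ : FS K) = v := Subtype.ext e2
        rw [e3, e4]
        exact huv
      · exact hF r hr
    · show cnf (lst (encode (cl K (q :: F)))) < cnf (lst x)
      rw [lst_encode, hx]
      refine cl_lt fun r hr hle => hu r hr ?_
      intro i
      have := hle i i.2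
      have e1 : vec K q.1 = u.1 := vec_ofFn _
      rw [← e1]
      exact this
  obtain ⟨u, hu1, hu2⟩ := exists_irred hF a
  obtain ⟨v, hv1, hv2⟩ := exists_irred hF b
  have huv : π u = π v := by rw [← gC_le hF hu1, ← gC_le hF hv1, hab]
  have e : u = v := by
    have h1 := key u v huv hu2
    have h2 := key v u huv.symm hv2
    exact Subtype.ext (toLex.injective (le_antisymm (not_lt.1 h1) (not_lt.1 h2)))
  subst e
  exact (gC K F).trans hu1 ((gC K F).symm hv1)

theorem equiv_of_ker {S : Type} [Add S] {K : ℕ} (c : AddCon (FS K)) (π : AddHom (FS K) S)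
    (hs : Function.Surjective π) (hk : ∀ a b, c a b ↔ π a = π b) : Nonempty (c.Quotient ≃+ S) := by
  let f : c.Quotient → S := Quotient.lift (fun a => π a) (fun a b h => (hk a b).1 h)
  have hf : Function.Bijective f := by
    constructor
    · intro x y
      refine Quotient.inductionOn₂ x y fun a b h => ?_
      exact Quotient.sound ((hk a b).2 h)
    · intro s
      obtain ⟨a, rfl⟩ := hs s
      exact ⟨Quotient.mk _ a, rfl⟩
  refine ⟨{ Equiv.ofBijective f hf with map_add' := ?_ }⟩
  intro x y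
  refine Quotient.inductionOn₂ x y fun a b => ?_
  exact map_add π a b

theorem iso_of_least {S T : Type} [Add S] [Add T] {x : ℕ} (hS : x ∈ WS S) (hT : x ∈ WS T)
    (hminS : ∀ y ∈ WS S, ¬ Ord y x) (hminT : ∀ y ∈ WS T, ¬ Ord y x) : Nonempty (S ≃+ T) := by
  obtain ⟨K, F, h1, π, h2, h3⟩ := hS
  obtain ⟨K', F', h1', π', h2', h3'⟩ := hT
  obtain ⟨rfl, rfl⟩ := cl_inj (h1.symm.trans h1')
  obtain ⟨f⟩ := equiv_of_ker (gC K F) π h2 (ker_eq h2 h3 h1 hminS)
  obtain ⟨g⟩ := equiv_of_ker (gC K F) π' h2' (ker_eq h2' h3' h1 hminT)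
  exact ⟨f.symm.trans g⟩

theorem WS_nonempty (k e : ℕ) : (WS (Sg k e)).Nonempty := by
  refine ⟨encode (cl k []), k, [], lst_encode _, ⟨fun a => (a : (pres k e).Quotient), ?_⟩, ?_, ?_⟩
  · intro a b; rfl
  · intro s
    refine Quotient.inductionOn s fun a => ?_
    exact ⟨a, rfl⟩
  · intro q hq; simp at hq

end Pool.Agent.H314.OmOm
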