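import Mathlib
import Pool.Agent.H314.OmOm.Alg

set_option autoImplicit false

/-!
The set attached to a presented semigroup is r.e. in the presentation.
-/

namespace Pool.Agent.H314.OmOm

open Encodable Pool.Agent.Helper446

/-- Entry of a list of lists. -/
def gl (L : List (List ℕ)) (i : ℕ) : List ℕ := (L[i]?).getD []

theorem gl_c : Computable fun x : List (List ℕ) × ℕ => gl x.1 x.2 :=
  Computable.option_getD (Computable.list_getElem?.comp Computable.fst Computable.snd)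
    (Computable.const [])

@[fun_prop] theorem gl_comp {α : Type*} [Primcodable α] {f : α → List (List ℕ)} {g : α → ℕ}
    (hf : Computable f) (hg : Computable g) : Computable fun x => gl (f x) (g x) :=
  gl_c.comp (hf.pair hg)

/-- The entry `j` of the image of `w` under the map sending the generator `i` to `L i`. -/
def ph (K : ℕ) (L : List (List ℕ)) (w : List ℕ) (j : ℕ) : ℕ :=
  (List.range K).foldl (fun s i => s + gd w i * gd (gl L i) j) 0

theorem ph_c : Computable fun x : (ℕ × List (List ℕ)) × (List ℕ × ℕ) =>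
    ph x.1.1 x.1.2 x.2.1 x.2.2 := by
  unfold ph
  refine RE.list_foldl (f := fun x : (ℕ × List (List ℕ)) × (List ℕ × ℕ) => List.range x.1.1)
    (g := fun _ => 0) (h := fun x y => y.1 + gd x.2.1 y.2 * gd (gl x.1.2 y.2) x.2.2) ?_ 
    (by fun_prop) ?_
  · exact Primrec.list_range.to_comp.comp (by fun_prop)
  · unfold Computable₂
    fun_prop

@[fun_prop] theorem ph_comp {α : Type*} [Primcodable α] {K : α → ℕ} {L : α → List (List ℕ)}
    {w : α → List ℕ} {j : α → ℕ} (hK : Computable K) (hL : Computable L) (hw : Computable w)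
    (hj : Computable j) : Computable fun x => ph (K x) (L x) (w x) (j x) :=
  ph_c.comp ((hK.pair hL).pair (hw.pair hj))

theorem foldl_sum (f : ℕ → ℕ) : ∀ K : ℕ,
    (List.range K).foldl (fun s i => s + f i) 0 = ∑ i : Fin K, f i
  | 0 => by simp
  | K + 1 => by
    rw [List.range_succ, List.foldl_append, foldl_sum f K, Fin.sum_univ_castSucc]
    simp

/-- The map on vectors. -/
def phv (k K : ℕ) (L : List (List ℕ)) (v : Fin K → ℕ) : Fin k → ℕ :=
  fun j => ∑ i : Fin K, v i * gd (gl L i) j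

theorem phv_add (k K : ℕ) (L : List (List ℕ)) (v w : Fin K → ℕ) :
    phv k K L (v + w) = phv k K L v + phv k K L w := by
  funext j
  simp only [phv, Pi.add_apply, add_mul, Finset.sum_add_distrib]

theorem phv_ne {k K : ℕ} {L : List (List ℕ)} (hL : ∀ i < K, vec k (gl L i) ≠ 0)
    {v : Fin K → ℕ} (hv : v ≠ 0) : phv k K L v ≠ 0 := by
  obtain ⟨i, hi⟩ := Function.ne_iff.1 hv
  obtain ⟨j, hj⟩ := Function.ne_iff.1 (hL i i.2)
  intro h
  have h1 := congrFun h j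
  have h2 := (Finset.sum_eq_zero_iff.1 h1) i (Finset.mem_univ i)
  rcases Nat.mul_eq_zero.1 h2 with h3 | h3
  · exact hi h3
  · exact hj h3

/-- `a` codes the image of `w`. -/
def isPhi (k K : ℕ) (L : List (List ℕ)) (w a : List ℕ) : Prop := ∀ j < k, gd a j = ph K L w j

theorem isPhi_iff {k K : ℕ} {L : List (List ℕ)} {w a : List ℕ} :
    isPhi k K L w a ↔ vec k a = phv k K L (vec K w) := by
  constructor
  · intro h
    funext j
    have := h j j.2
    rw [ph, foldl_sum (fun i => gd w i * gd (gl L i) j)] at this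
    exact this
  · intro h j hj
    have := congrFun h ⟨j, hj⟩
    rw [ph, foldl_sum (fun i => gd w i * gd (gl L i) j)]
    exact this

/-- A nonzero vector. -/
def NZ (k : ℕ) (a : List ℕ) : Prop := ∃ i, i < k ∧ gd a i ≠ 0

/-- Lexicographic comparison of vectors. -/
def lexL (K : ℕ) (u v : List ℕ) : Prop := ∃ i, i < K ∧ (∀ j < i, gd u j = gd v j) ∧ gd u i < gd v i

theorem lexL_iff {K : ℕ} {u v : List ℕ} : lexL K u v ↔ toLex (vec K u) < toLex (vec K v) := by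
  constructor
  · rintro ⟨i, hi, h1, h2⟩
    exact ⟨⟨i, hi⟩, fun j hj => h1 j hj, h2⟩
  · rintro ⟨i, h1, h2⟩
    exact ⟨i, i.2, fun j hj => h1 ⟨j, by omega⟩ hj, h2⟩

/-- `a` codes the generator `i`. -/
def isGen (k i : ℕ) (a : List ℕ) : Prop := ∀ j < k, gd a j = 1 - ((j - i) + (i - j))

theorem isGen_iff {k : ℕ} {i : Fin k} {a : List ℕ} : isGen k i a ↔ vec k a = (gen i).1 := by
  have key : ∀ j : Fin k, 1 - (((j : ℕ) - i) + ((i : ℕ) - j)) = (gen i).1 j := by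
    intro j
    show _ = (Pi.single i 1 : Fin k → ℕ) j
    by_cases h : j = i
    · subst h; simp
    · have : (j : ℕ) ≠ i := fun h' => h (Fin.ext h')
      simp only [Pi.single_apply, h, if_false]
      omega
  constructor
  · intro h
    funext j
    rw [← key]
    exact h j j.2
  · intro h j hj
    rw [key ⟨j, hj⟩, ← h]
    rfl

/-- The data: number of generators, relations, a bound, the images of the generators. -/
abbrev Dat := (ℕ × List (List ℕ × List ℕ)) × (ℕ × List (List ℕ))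

/-- The set attached to the presentation, in arithmetical form. -/
def Mem (k e x : ℕ) : Prop :=
  ∃ t : Dat, (lst x).length = t.1.1 + 2 ∧ gd (lst x) (t.1.1 + 1) = encode t.1 ∧
    (∀ i < t.1.1 + 1, gd (lst x) i = cnB t.2.1 t.1.1 t.1.2 (t.1.1 - i)) ∧
    (∀ q ∈ t.1.2, ∀ i < t.1.1, gd q.1 i < t.2.1) ∧
    (∀ q ∈ t.1.2, NZ t.1.1 q.1 ∧ NZ t.1.1 q.2 ∧ lexL t.1.1 q.2 q.1 ∧
      ∃ ab : List ℕ × List ℕ, isPhi k t.1.1 t.2.2 q.1 ab.1 ∧ isPhi k t.1.1 t.2.2 q.2 ab.2 ∧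
        CongL k e ab.1 ab.2) ∧
    (∀ i < t.1.1, NZ k (gl t.2.2 i)) ∧
    (∀ i < k, ∃ r : List ℕ × List ℕ × List ℕ, isGen k i r.1 ∧ NZ t.1.1 r.2.1 ∧
      isPhi k t.1.1 t.2.2 r.2.1 r.2.2 ∧ CongL k e r.1 r.2.2)

section re

variable {α : Type*} [Primcodable α]

theorem NZ_re {k : α → ℕ} {a : α → List ℕ} (hk : Computable k) (ha : Computable a) :
    REPred fun x => NZ (k x) (a x) := by
  unfold NZ
  refine RE.exN (p := fun x i => i < k x ∧ gd (a x) i ≠ 0) ?_
  exact RE.and (RE.lt (by fun_prop) (by fun_prop)) (RE.ne (by fun_prop) (by fun_prop))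

theorem lexL_re {k : α → ℕ} {a b : α → List ℕ} (hk : Computable k) (ha : Computable a)
    (hb : Computable b) : REPred fun x => lexL (k x) (a x) (b x) := by
  unfold lexL
  refine RE.exN (p := fun x i => i < k x ∧ (∀ j < i, gd (a x) j = gd (b x) j) ∧
    gd (a x) i < gd (b x) i) ?_
  refine RE.and (RE.lt (by fun_prop) (by fun_prop)) (RE.and ?_ (RE.lt (by fun_prop) (by fun_prop)))
  refine RE.all_lt (p := fun (x : α × ℕ) j => gd (a x.1) j = gd (b x.1) j) ?_ (by fun_prop)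
  exact RE.eq (by fun_prop) (by fun_prop)

theorem isPhi_re {k K : α → ℕ} {L : α → List (List ℕ)} {w a : α → List ℕ} (hk : Computable k)
    (hK : Computable K) (hL : Computable L) (hw : Computable w) (ha : Computable a) :
    REPred fun x => isPhi (k x) (K x) (L x) (w x) (a x) := by
  unfold isPhi
  refine RE.all_lt (p := fun x j => gd (a x) j = ph (K x) (L x) (w x) j) ?_ hk
  exact RE.eq (by fun_prop) (by fun_prop)

theorem isGen_re {k i : α → ℕ} {a : α → List ℕ} (hk : Computable k)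
    (hi : Computable i) (ha : Computable a) :
    REPred fun x => isGen (k x) (i x) (a x) := by
  unfold isGen
  refine RE.all_lt (p := fun x j => gd (a x) j = 1 - ((j - i x) + (i x - j))) ?_ hk
  exact RE.eq (by fun_prop) (by fun_prop)

theorem cong_re' {k e : α → ℕ} {a b : α → List ℕ} (hk : Computable k) (he : Computable e)
    (ha : Computable a) (hb : Computable b) :
    REPred fun x => CongL (k x) (e x) (a x) (b x) :=
  RE.comp (p := fun x : (ℕ × ℕ) × List ℕ × List ℕ => CongL x.1.1 x.1.2 x.2.1 x.2.2) congL_re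
    (f := fun x => ((k x, e x), (a x, b x))) (by fun_prop)

end re

theorem mem_re : REPred fun z : (ℕ × ℕ) × ℕ => Mem z.1.1 z.1.2 z.2 := by
  unfold Mem
  refine RE.ex (p := fun (z : (ℕ × ℕ) × ℕ) (t : Dat) =>
    (lst z.2).length = t.1.1 + 2 ∧ gd (lst z.2) (t.1.1 + 1) = encode t.1 ∧
    (∀ i < t.1.1 + 1, gd (lst z.2) i = cnB t.2.1 t.1.1 t.1.2 (t.1.1 - i)) ∧
    (∀ q ∈ t.1.2, ∀ i < t.1.1, gd q.1 i < t.2.1) ∧
    (∀ q ∈ t.1.2, NZ t.1.1 q.1 ∧ NZ t.1.1 q.2 ∧ lexL t.1.1 q.2 q.1 ∧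
      ∃ ab : List ℕ × List ℕ, isPhi z.1.1 t.1.1 t.2.2 q.1 ab.1 ∧
        isPhi z.1.1 t.1.1 t.2.2 q.2 ab.2 ∧ CongL z.1.1 z.1.2 ab.1 ab.2) ∧
    (∀ i < t.1.1, NZ z.1.1 (gl t.2.2 i)) ∧
    (∀ i < z.1.1, ∃ r : List ℕ × List ℕ × List ℕ, isGen z.1.1 i r.1 ∧ NZ t.1.1 r.2.1 ∧
      isPhi z.1.1 t.1.1 t.2.2 r.2.1 r.2.2 ∧ CongL z.1.1 z.1.2 r.1 r.2.2)) ?_
  refine RE.and (RE.eq (by fun_prop) (by fun_prop)) (RE.and (RE.eq (by fun_prop) (by fun_prop))
    (RE.and ?_ (RE.and ?_ (RE.and ?_ (RE.and ?_ ?_)))))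
  · refine RE.all_lt (p := fun (z : ((ℕ × ℕ) × ℕ) × Dat) i =>
      gd (lst z.1.2) i = cnB z.2.2.1 z.2.1.1 z.2.1.2 (z.2.1.1 - i)) ?_ (by fun_prop)
    refine RE.eq (by fun_prop) ?_
    exact cnB_c.comp (f := fun x : (ℕ × ℕ) × (List (List ℕ × List ℕ) × ℕ) =>
      cnB x.1.1 x.1.2 x.2.1 x.2.2) (g := fun z : (((ℕ × ℕ) × ℕ) × Dat) × ℕ =>
      ((z.1.2.2.1, z.1.2.1.1), (z.1.2.1.2, z.1.2.1.1 - z.2))) (by fun_prop)
  · refine RE.all_mem (p := fun (z : ((ℕ × ℕ) × ℕ) × Dat) (q : List ℕ × List ℕ) =>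
      ∀ i < z.2.1.1, gd q.1 i < z.2.2.1) ?_ (by fun_prop)
    refine RE.all_lt (p := fun (z : (((ℕ × ℕ) × ℕ) × Dat) × (List ℕ × List ℕ)) i =>
      gd z.2.1 i < z.1.2.2.1) ?_ (by fun_prop)
    exact RE.lt (by fun_prop) (by fun_prop)
  · refine RE.all_mem (p := fun (z : ((ℕ × ℕ) × ℕ) × Dat) (q : List ℕ × List ℕ) =>
      NZ z.2.1.1 q.1 ∧ NZ z.2.1.1 q.2 ∧ lexL z.2.1.1 q.2 q.1 ∧
      ∃ ab : List ℕ × List ℕ, isPhi z.1.1.1 z.2.1.1 z.2.2.2 q.1 ab.1 ∧
        isPhi z.1.1.1 z.2.1.1 z.2.2.2 q.2 ab.2 ∧ CongL z.1.1.1 z.1.1.2 ab.1 ab.2) ?_ (by fun_prop)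
    refine RE.and (NZ_re (by fun_prop) (by fun_prop)) (RE.and (NZ_re (by fun_prop) (by fun_prop))
      (RE.and (lexL_re (by fun_prop) (by fun_prop) (by fun_prop)) ?_))
    refine RE.ex (p := fun (z : (((ℕ × ℕ) × ℕ) × Dat) × (List ℕ × List ℕ))
      (ab : List ℕ × List ℕ) => isPhi z.1.1.1.1 z.1.2.1.1 z.1.2.2.2 z.2.1 ab.1 ∧
        isPhi z.1.1.1.1 z.1.2.1.1 z.1.2.2.2 z.2.2 ab.2 ∧
        CongL z.1.1.1.1 z.1.1.1.2 ab.1 ab.2) ?_
    exact RE.and (isPhi_re (by fun_prop) (by fun_prop) (by fun_prop) (by fun_prop) (by fun_prop))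
      (RE.and (isPhi_re (by fun_prop) (by fun_prop) (by fun_prop) (by fun_prop) (by fun_prop))
      (cong_re' (by fun_prop) (by fun_prop) (by fun_prop) (by fun_prop)))
  · refine RE.all_lt (p := fun (z : ((ℕ × ℕ) × ℕ) × Dat) i => NZ z.1.1.1 (gl z.2.2.2 i)) ?_
      (by fun_prop)
    exact NZ_re (by fun_prop) (by fun_prop)
  · refine RE.all_lt (p := fun (z : ((ℕ × ℕ) × ℕ) × Dat) i =>
      ∃ r : List ℕ × List ℕ × List ℕ, isGen z.1.1.1 i r.1 ∧ NZ z.2.1.1 r.2.1 ∧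
      isPhi z.1.1.1 z.2.1.1 z.2.2.2 r.2.1 r.2.2 ∧ CongL z.1.1.1 z.1.1.2 r.1 r.2.2) ?_ (by fun_prop)
    refine RE.ex (p := fun (z : (((ℕ × ℕ) × ℕ) × Dat) × ℕ) (r : List ℕ × List ℕ × List ℕ) =>
      isGen z.1.1.1.1 z.2 r.1 ∧ NZ z.1.2.1.1 r.2.1 ∧
      isPhi z.1.1.1.1 z.1.2.1.1 z.1.2.2.2 r.2.1 r.2.2 ∧ CongL z.1.1.1.1 z.1.1.1.2 r.1 r.2.2) ?_
    exact RE.and (isGen_re (by fun_prop) (by fun_prop) (by fun_prop))
      (RE.and (NZ_re (by fun_prop) (by fun_prop))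
      (RE.and (isPhi_re (by fun_prop) (by fun_prop) (by fun_prop) (by fun_prop) (by fun_prop))
      (cong_re' (by fun_prop) (by fun_prop) (by fun_prop) (by fun_prop))))

/-- The class of an element. -/
def qm {k e : ℕ} (a : FS k) : Sg k e := (a : (pres k e).Quotient)

theorem mk_eq {k e : ℕ} {a b : FS k} : (qm a : Sg k e) = qm b ↔ pres k e a b := AddCon.eq _

theorem qm_add {k e : ℕ} (a b : FS k) : (qm (a + b) : Sg k e) = qm a + qm b := rfl

theorem qm_surj {k e : ℕ} (s : Sg k e) : ∃ a, qm a = s := Quotient.exists_rep s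

/-- The map given by a list. -/
def phF {k K : ℕ} {L : List (List ℕ)} (hL : ∀ i < K, vec k (gl L i) ≠ 0) (v : FS K) : FS k :=
  ⟨phv k K L v.1, phv_ne hL v.2⟩

/-- The homomorphism given by a list. -/
def hom {k K : ℕ} {L : List (List ℕ)} (hL : ∀ i < K, vec k (gl L i) ≠ 0) (e : ℕ) :
    AddHom (FS K) (Sg k e) where
  toFun v := qm (phF hL v)
  map_add' v w := by
    have h : phF hL (v + w) = phF hL v + phF hL w :=
      Subtype.ext (phv_add k K L v.1 w.1)
    rw [h, qm_add]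

theorem hom_eq {k K : ℕ} {L : List (List ℕ)} (hL : ∀ i < K, vec k (gl L i) ≠ 0) (e : ℕ)
    (v : FS K) : hom hL e v = qm (phF hL v) := rfl

theorem mem_iff (k e x : ℕ) : Mem k e x ↔ x ∈ WS (Sg k e) := by
  constructor
  · rintro ⟨⟨⟨K, F⟩, ⟨B, L⟩⟩, h1, h2, h3, h4, h5, h6, h7⟩
    dsimp only at h1 h2 h3 h4 h5 h6 h7
    have hL : ∀ i < K, vec k (gl L i) ≠ 0 := fun i hi => vec_ne_iff.2 (h6 i hi)
    refine ⟨K, F, ?_, hom hL e, ?_, ?_⟩
    · rw [eq_cl_iff]
      refine ⟨h1, h2, fun i hi => ?_⟩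
      rw [h3 i hi, cn_eq h4]
    · intro s
      obtain ⟨a, rfl⟩ := qm_surj s
      induction a using fs_ind with
      | hg i =>
        obtain ⟨⟨g, w, a⟩, h8, h9, h10, h11⟩ := h7 i i.2
        refine ⟨⟨vec K w, vec_ne_iff.2 h9⟩, ?_⟩
        refine mk_eq.2 ((pres k e).symm ?_)
        refine (pres_iff_L (u := g) (v := a) (isGen_iff.1 h8) ?_).2 h11
        exact isPhi_iff.1 h10
      | ha a b iha ihb =>
        obtain ⟨u, hu⟩ := iha
        obtain ⟨v, hv⟩ := ihb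
        refine ⟨u + v, ?_⟩
        rw [map_add, hu, hv]
        rfl
    · intro q hq
      obtain ⟨h8, h9, h10, ⟨a, b⟩, h11, h12, h13⟩ := h5 q hq
      refine ⟨vec_ne_iff.2 h8, vec_ne_iff.2 h9, lexL_iff.1 h10, ?_⟩
      refine mk_eq.2 ?_
      exact (pres_iff_L (u := a) (v := b) (isPhi_iff.1 h11) (isPhi_iff.1 h12)).2 h13
  · rintro ⟨K, F, h1, π, h2, h3⟩
    obtain ⟨B, hB⟩ := exists_bound K F
    have hr : ∀ i : Fin K, ∃ a : FS k, qm a = π (gen i) := fun i => qm_surj _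
    choose r hr using hr
    let L : List (List ℕ) := List.ofFn fun i => List.ofFn (r i).1
    have hgl : ∀ i : Fin K, gl L i = List.ofFn (r i).1 := by
      intro i
      simp [gl, L]
    have hL : ∀ i < K, vec k (gl L i) ≠ 0 := by
      intro i hi
      rw [hgl ⟨i, hi⟩, vec_ofFn]
      exact (r _).2
    have hπ : ∀ v : FS K, π v = hom hL e v := by
      intro v
      induction v using fs_ind with
      | hg i =>
        rw [← hr i, hom_eq]
        congr 1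
        refine Subtype.ext ?_
        funext j
        show (r i).1 j = ∑ i' : Fin K, (Pi.single i 1 : Fin K → ℕ) i' * gd (gl L i') j
        rw [Finset.sum_eq_single i]
        · rw [hgl, Pi.single_eq_same, one_mul]
          exact (congrFun (vec_ofFn (r i).1) j).symm
        · intro b _ hb
          rw [Pi.single_eq_of_ne hb, zero_mul]
        · intro h; exact absurd (Finset.mem_univ i) h
      | ha a b iha ihb => rw [map_add, map_add, iha, ihb]
    obtain ⟨h4, h5, h6⟩ := eq_cl_iff.1 h1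
    refine ⟨⟨⟨K, F⟩, ⟨B, L⟩⟩, h4, h5, fun i hi => ?_, hB, ?_, ?_, ?_⟩
    · rw [h6 i hi, cn_eq hB]
    · intro q hq
      obtain ⟨h7, h8, h9, h10⟩ := h3 q hq
      refine ⟨vec_ne_iff.1 h7, vec_ne_iff.1 h8, lexL_iff.2 h9,
        ⟨List.ofFn (phv k K L (vec K q.1)), List.ofFn (phv k K L (vec K q.2))⟩,
        isPhi_iff.2 (vec_ofFn _), isPhi_iff.2 (vec_ofFn _), ?_⟩
      have h11 : hom hL e (⟨vec K q.1, h7⟩ : FS K) = hom hL e (⟨vec K q.2, h8⟩ : FS K) :=
        (hπ _).symm.trans (h10.trans (hπ _))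
      exact (pres_iff_L (vec_ofFn _) (vec_ofFn _)).1 (mk_eq.1 h11)
    · intro i hi
      exact vec_ne_iff.1 (hL i hi)
    · intro i hi
      obtain ⟨w, hw⟩ := h2 (qm (gen (⟨i, hi⟩ : Fin k)))
      refine ⟨⟨List.ofFn (gen (⟨i, hi⟩ : Fin k)).1, List.ofFn w.1,
        List.ofFn (phv k K L w.1)⟩, ?_, ?_, ?_, ?_⟩
      · exact (isGen_iff (i := ⟨i, hi⟩)).2 (vec_ofFn _)
      · refine vec_ne_iff.1 ?_
        show vec K (List.ofFn w.1) ≠ 0
        rw [vec_ofFn]; exact w.2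
      · refine isPhi_iff.2 ?_
        show vec k (List.ofFn (phv k K L w.1)) = phv k K L (vec K (List.ofFn w.1))
        rw [vec_ofFn, vec_ofFn]
      · rw [hπ, hom_eq] at hw
        exact (pres_iff_L (vec_ofFn _) (vec_ofFn _)).1 ((pres k e).symm (mk_eq.1 hw))

theorem exists_smn {R : ℕ → ℕ → Prop} (hR : REPred fun x : ℕ × ℕ => R x.1 x.2) :
    ∃ f : ℕ → ℕ, Computable f ∧ ∀ e y, y ∈ W (f e) ↔ R e y := by
  have h1 : REPred fun n : ℕ => R n.unpair.1 n.unpair.2 :=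
    RE.comp (p := fun x : ℕ × ℕ => R x.1 x.2) hR (f := fun n : ℕ => n.unpair) (by fun_prop)
  have h2 : Nat.Partrec fun n : ℕ => (Part.assert (R n.unpair.1 n.unpair.2) fun _ =>
      Part.some ()).map fun _ => 0 :=
    Partrec.nat_iff.1 (h1.map (Computable.const 0).to₂)
  obtain ⟨c, hc⟩ := Nat.Partrec.Code.exists_code.1 h2
  refine ⟨fun e => encode (Nat.Partrec.Code.curry c e), ?_, ?_⟩
  · exact Computable.encode.comp
      (Nat.Partrec.Code.primrec₂_curry.to_comp.comp (Computable.const c) Computable.id)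
  · intro e y
    unfold W
    simp only [Set.mem_ofPred_eq, Denumerable.ofNat_encode, Nat.Partrec.Code.eval_curry, hc]
    have h3 : ∀ n : ℕ, ((Part.assert (R n.unpair.1 n.unpair.2) fun _ =>
      Part.some ()).map fun _ => 0).Dom ↔ R n.unpair.1 n.unpair.2 := by
      intro n
      simp only [Part.map_Dom]
      constructor
      · rintro ⟨h, -⟩; exact h
      · intro h; exact ⟨h, trivial⟩
    rw [h3, Nat.unpair_pair]

end Pool.Agent.H314.OmOm
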